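import Pool.Agent.R419.KF.Box
import Pool.Agent.Y170.XL.BOX

/-!
# Project KL (helper419): the count in a box, with weights and all ranks

Adapted from the files `Y170/XL/BOX.lean` of helper170 and `Y688/XK/BOX.lean` of helper688.
-/

set_option autoImplicit false

open scoped Classical

namespace Pool.Agent.R419.KL

open Finset
open Pool.Agent.Y692.QS (Ei)
open Pool.Agent.Y715.T.Rec (cs)
open Pool.Agent.Y715.T.RecG (Pq)
open Pool.Agent.Y703.XK (Nd HB prs S_EQ)
open Pool.Agent.Y703.XL (nA cr S_LA)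
open Pool.Agent.Y688.XK (lb LN cs_symm nd_iff ext_sum HB_sub)
open Pool.Agent.Y170.XL (em em_bij fe sum_em)
open Pool.Agent.R419.KF (wt wt_one wt_ne)

/-- the number of the solutions of the weighted Laplacian system -/
noncomputable def nSW (M S : Finset Ei) : ℕ :=
  Nat.card {v : S → ZMod 3 // ∀ π : S, ∑ ρ : S, wt M ρ * cs π ρ * (v ρ - v π) = 0}

/-- the pairs whose solution space has dimension `r + 1` -/
def GrW (r : ℕ) (M S : Finset Ei) : Prop := nSW M S = 3 ^ (r + 1)

/-- the count in a box for a property `P` with the constants `c`, `K` -/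
def BoxW (P : Finset Ei → Finset Ei → Prop) (c K : ℝ) : Prop :=
  ∀ (ι : Type) [Fintype ι] [LinearOrder ι]
  (C : ι → Finset Ei) (X : ι → ℕ) (κ : ℝ) (M S₀ : Finset Ei), M ⊆ S₀ → 0 ≤ κ →
  (∀ i, (C i).card ≤ X i) →
  HB C X κ → (∀ u ∈ S₀, Pq u) → (∀ i, ∀ π ∈ C i, Pq π ∧ π ∉ S₀) →
  (∀ i l, i ≠ l → Disjoint (C i) (C l)) → S₀.card < Fintype.card ι →
  |(((Fintype.piFinset C).filter fun p => Nd S₀ (univ.image p) ∧
      P M (S₀ ∪ univ.image p)).card : ℝ) -
      c * (((Fintype.piFinset C).filter fun p => Nd S₀ (univ.image p)).card : ℝ)| ≤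
    K * (3 ^ S₀.card / 3 ^ Fintype.card ι) *
      (((Fintype.piFinset C).filter fun p => Nd S₀ (univ.image p)).card : ℝ) +
    3 ^ (S₀.card * Fintype.card ι + (prs ι).card) * (κ * ∏ j, (X j : ℝ))

section one
variable {ι : Type} [Fintype ι] [LinearOrder ι] {M S₀ : Finset Ei} {p : ι → Ei}

/-- **the numbers of solutions agree** -/
theorem nSW_eq (hM : M ⊆ S₀) (hp : Function.Injective p) (hpr : ∀ i, Pq (p i))
    (hS₀ : ∀ u ∈ S₀, Pq u) (hd : ∀ i, p i ∉ S₀) :
    nSW M (S₀ ∪ univ.image p) = nA (fun u v : S₀ => wt M u * wt M v * cs u v)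
      (fun (u : S₀) l => wt M u * cs u (p l))
      (Pool.Agent.Y703.XK.ext fun e : prs ι => cs (p e.1.1) (p e.1.2)) := by
  have hw : ∀ i, wt M (em S₀ p (Sum.inr i) : Ei) = 1 := fun i => wt_one fun h => hd i (hM h)
  unfold nSW nA
  refine Nat.card_congr (Equiv.subtypeEquiv (fe hp hd) fun v => ?_)
  have hsym : ∀ k : ι, ∑ u : S₀, wt M u * cs (p k) u *
      (v (em S₀ p (Sum.inl u)) - v (em S₀ p (Sum.inr k))) =
      ∑ u : S₀, wt M u * cs u (p k) *
        (v (em S₀ p (Sum.inl u)) - v (em S₀ p (Sum.inr k))) := by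
    intro k
    refine Finset.sum_congr rfl fun u _ => ?_
    rw [cs_symm (hpr k) (hS₀ u u.2)]
  have hext := fun k => ext_sum hpr k (fun l => v (em S₀ p (Sum.inr l)))
  -- the rows
  have hrow1 : ∀ u : S₀, ∑ ρ : ↥(S₀ ∪ univ.image p), wt M ρ * cs u ρ *
      (v ρ - v (em S₀ p (Sum.inl u))) =
      ∑ w : S₀, wt M w * cs u w * (v (em S₀ p (Sum.inl w)) - v (em S₀ p (Sum.inl u))) +
      ∑ l, cs u (p l) * (v (em S₀ p (Sum.inr l)) - v (em S₀ p (Sum.inl u))) := by
    intro u
    rw [sum_em hp hd]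
    congr 1
    refine Finset.sum_congr rfl fun l _ => ?_
    rw [hw, one_mul]
    rfl
  have hrow2 : ∀ k : ι, ∑ ρ : ↥(S₀ ∪ univ.image p), wt M ρ * cs (p k) ρ *
      (v ρ - v (em S₀ p (Sum.inr k))) =
      ∑ w : S₀, wt M w * cs (p k) w * (v (em S₀ p (Sum.inl w)) - v (em S₀ p (Sum.inr k))) +
      ∑ l, cs (p k) (p l) * (v (em S₀ p (Sum.inr l)) - v (em S₀ p (Sum.inr k))) := by
    intro k
    rw [sum_em hp hd]
    congr 1
    refine Finset.sum_congr rfl fun l _ => ?_
    rw [hw, one_mul]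
    rfl
  have hmul : ∀ u : S₀, ∑ w : S₀, wt M u * wt M w * cs u w *
      (v (em S₀ p (Sum.inl w)) - v (em S₀ p (Sum.inl u))) +
      ∑ l, wt M u * cs u (p l) * (v (em S₀ p (Sum.inr l)) - v (em S₀ p (Sum.inl u))) =
      wt M u * (∑ w : S₀, wt M w * cs u w *
        (v (em S₀ p (Sum.inl w)) - v (em S₀ p (Sum.inl u))) +
      ∑ l, cs u (p l) * (v (em S₀ p (Sum.inr l)) - v (em S₀ p (Sum.inl u)))) := by
    intro u
    rw [mul_add, Finset.mul_sum, Finset.mul_sum]
    congr 1
    · exact Finset.sum_congr rfl fun w _ => by ring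
    · exact Finset.sum_congr rfl fun l _ => by ring
  constructor
  · intro h
    refine ⟨fun u => ?_, fun k => ?_⟩
    · have h1 := (hrow1 u).symm.trans (h (em S₀ p (Sum.inl u)))
      refine (hmul u).trans ?_
      rw [h1, mul_zero]
    · have h2 := (hrow2 k).symm.trans (h (em S₀ p (Sum.inr k)))
      rw [hsym, ← hext k] at h2
      exact h2
  · rintro ⟨h1, h2⟩ x
    obtain ⟨y, rfl⟩ := (em_bij hp hd).2 x
    rcases y with u | k
    · refine (hrow1 u).trans ?_
      have h3 := (hmul u).symm.trans (h1 u)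
      exact (mul_eq_zero.1 h3).resolve_left (wt_ne M _)
    · have h3 : ∑ u : S₀, wt M u * cs u (p k) *
          (v (em S₀ p (Sum.inl u)) - v (em S₀ p (Sum.inr k))) +
        ∑ l, Pool.Agent.Y703.XK.ext (fun e : prs ι => cs (p e.1.1) (p e.1.2)) k l *
          (v (em S₀ p (Sum.inr l)) - v (em S₀ p (Sum.inr k))) = 0 := h2 k
      rw [hext k, ← hsym] at h3
      exact (hrow2 k).trans h3

end one

/-- **The count in a box.** -/
theorem t_BOXL (hEQ : S_EQ) (hLA : S_LA) (r : ℕ) : BoxW (GrW r) (cr r) (3 ^ (r + 1)) := by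
  intro ι _ _ C X κ M S₀ hM hκ hCX hHB hS₀ hC hdis hcard
  obtain ⟨cc, hcc⟩ : ∃ cc : ℝ, cc = 3 ^ (r + 1) * (3 ^ S₀.card / 3 ^ Fintype.card ι) := ⟨_, rfl⟩
  obtain ⟨R, hR⟩ : ∃ R : ℝ, R = 3 ^ (prs ι).card * (κ * ∏ j, (X j : ℝ)) := ⟨_, rfl⟩
  have hcc0 : 0 ≤ cc := by rw [hcc]; positivity
  have hR0 : 0 ≤ R := by
    rw [hR]
    exact mul_nonneg (by positivity)
      (mul_nonneg hκ (Finset.prod_nonneg fun j _ => by positivity))
  -- facts on tuples
  have hinj : ∀ p ∈ Fintype.piFinset C, Function.Injective p := by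
    intro p hp i j hij
    rw [Fintype.mem_piFinset] at hp
    by_contra hne
    have h1 := Finset.disjoint_left.1 (hdis i j hne) (hp i)
    rw [hij] at h1
    exact h1 (hp j)
  have hd : ∀ p ∈ Fintype.piFinset C, ∀ i, p i ∉ S₀ := by
    intro p hp i
    rw [Fintype.mem_piFinset] at hp
    exact (hC i _ (hp i)).2
  have hpr : ∀ p ∈ Fintype.piFinset C, ∀ i, Pq (p i) := by
    intro p hp i
    rw [Fintype.mem_piFinset] at hp
    exact (hC i _ (hp i)).1
  -- the part with given labels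
  have h1 : ∀ β : ι → S₀ → ZMod 3, LN S₀ β →
      |(((Fintype.piFinset C).filter fun p => (fun i => lb S₀ (p i)) = β ∧
          GrW r M (S₀ ∪ univ.image p)).card : ℝ) -
        cr r * (((Fintype.piFinset C).filter fun p => (fun i => lb S₀ (p i)) = β).card : ℝ)| ≤
      cc * (((Fintype.piFinset C).filter fun p => (fun i => lb S₀ (p i)) = β).card : ℝ) + R := by
    intro β hβ
    obtain ⟨C', hC'⟩ : ∃ C' : ι → Finset Ei, C' = fun i => (C i).filter fun q => lb S₀ q = β i :=
      ⟨_, rfl⟩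
    have hpi : (Fintype.piFinset C).filter (fun p => (fun i => lb S₀ (p i)) = β) =
        Fintype.piFinset C' := by
      ext p
      simp only [Finset.mem_filter, Fintype.mem_piFinset, hC']
      constructor
      · rintro ⟨h2, h3⟩ i
        exact ⟨h2 i, congrFun h3 i⟩
      · intro h2
        exact ⟨fun i => (h2 i).1, funext fun i => (h2 i).2⟩
    have h2 := hLA r S₀ ι (fun u v => wt M u * wt M v * cs u v) (fun u l => wt M u * β l u)
      (by rw [Fintype.card_coe]; exact hcard)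
      (fun u v => by rw [cs_symm (hS₀ u u.2) (hS₀ v v.2), mul_comm (wt M u) (wt M v)])
      (fun w hw => by
        obtain ⟨u, hu⟩ := hw
        obtain ⟨k, hk⟩ := hβ (fun u => w u * wt M u) ⟨u, mul_ne_zero hu (wt_ne M u)⟩
        refine ⟨k, fun h0 => hk ?_⟩
        rw [← h0]
        exact Finset.sum_congr rfl fun u _ => mul_assoc _ _ _)
    obtain ⟨Q, hQ⟩ : ∃ Q : (prs ι → ZMod 3) → Prop, Q = fun α =>
        nA (fun u v : S₀ => wt M u * wt M v * cs u v) (fun (u : S₀) l => wt M u * β l u)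
          (Pool.Agent.Y703.XK.ext α) = 3 ^ (r + 1) := ⟨_, rfl⟩
    have h3 := hEQ ι C' X κ hκ
      (fun i => (Finset.card_le_card (by rw [hC']; exact Finset.filter_subset _ _)).trans (hCX i))
      (by rw [hC']; exact HB_sub hHB fun i q => lb S₀ q = β i) Q
    have h4 : ((Fintype.piFinset C).filter fun p => (fun i => lb S₀ (p i)) = β ∧
        GrW r M (S₀ ∪ univ.image p)) = ((Fintype.piFinset C').filter fun p =>
          Q fun e => cs (p e.1.1) (p e.1.2)) := by
      rw [← hpi, Finset.filter_filter]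
      refine Finset.filter_congr fun p hp => ?_
      refine and_congr_right fun hl => ?_
      unfold GrW
      rw [nSW_eq hM (hinj p hp) (hpr p hp) hS₀ (hd p hp)]
      subst hl
      rw [hQ]
      exact Iff.rfl
    have h5 : (((Fintype.piFinset C').card : ℕ) : ℝ) = ∏ j, ((C' j).card : ℝ) := by
      rw [Fintype.card_piFinset]
      push_cast
      rfl
    rw [h4, hpi, h5]
    rw [Fintype.card_coe, ← hcc] at h2
    rw [← hR] at h3
    obtain ⟨n, hn⟩ : ∃ n : ℝ, n = (((Fintype.piFinset C').filter fun p =>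
          Q fun e => cs (p e.1.1) (p e.1.2)).card : ℝ) := ⟨_, rfl⟩
    obtain ⟨q, hq⟩ : ∃ q : ℝ, q = ((univ.filter Q).card : ℝ) / 3 ^ (prs ι).card := ⟨_, rfl⟩
    obtain ⟨P, hP⟩ : ∃ P : ℝ, P = ∏ j, ((C' j).card : ℝ) := ⟨_, rfl⟩
    have hP0 : 0 ≤ P := by
      rw [hP]
      exact Finset.prod_nonneg fun j _ => by positivity
    have h2' : |q - cr r| ≤ cc := by
      have e : (univ.filter Q) = (univ.filter fun α : prs ι → ZMod 3 =>
          nA (fun u v : S₀ => wt M u * wt M v * cs u v) (fun (u : S₀) l => wt M u * β l u)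
            (Pool.Agent.Y703.XK.ext α) = 3 ^ (r + 1)) := by
        ext α
        rw [Finset.mem_filter, Finset.mem_filter, hQ]
      rw [hq, e]
      exact h2
    rw [← hn, ← hq, ← hP] at h3
    rw [← hn, ← hP]
    have h6 : |n - cr r * P| ≤ |n - q * P| + |q - cr r| * P := by
      have h7 : n - cr r * P = (n - q * P) + (q - cr r) * P := by ring
      have h8 : |(q - cr r) * P| = |q - cr r| * P := by rw [abs_mul, abs_of_nonneg hP0]
      rw [h7, ← h8]
      exact abs_add_le _ _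
    have h7 : |q - cr r| * P ≤ cc * P := mul_le_mul_of_nonneg_right h2' hP0
    linarith
  -- sum over the labels
  obtain ⟨LL, hLL⟩ : ∃ LL : Finset (ι → S₀ → ZMod 3), LL = univ.filter (fun β => LN S₀ β) :=
    ⟨_, rfl⟩
  have hfib : ∀ T : (ι → Ei) → Prop,
      (((Fintype.piFinset C).filter fun p => Nd S₀ (univ.image p) ∧ T p).card : ℝ) =
      ∑ β ∈ LL, (((Fintype.piFinset C).filter fun p =>
        (fun i => lb S₀ (p i)) = β ∧ T p).card : ℝ) := by
    intro T
    rw [Finset.card_eq_sum_card_fiberwise (f := fun (p : ι → Ei) (i : ι) => lb S₀ (p i))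
      (t := LL) (by
        intro p hp
        rw [Finset.mem_coe, Finset.mem_filter] at hp
        rw [Finset.mem_coe, hLL, Finset.mem_filter]
        exact ⟨Finset.mem_univ _, nd_iff.1 hp.2.1⟩)]
    push_cast
    refine Finset.sum_congr rfl fun β hβ => ?_
    rw [hLL, Finset.mem_filter] at hβ
    congr 2
    ext p
    simp only [Finset.mem_filter]
    constructor
    · rintro ⟨⟨h3, h4, h4'⟩, h5⟩
      exact ⟨h3, h5, h4'⟩
    · rintro ⟨h3, h4, h5⟩
      refine ⟨⟨h3, ?_, h5⟩, h4⟩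
      rw [nd_iff, h4]
      exact hβ.2
  have hf1 := hfib fun p => GrW r M (S₀ ∪ univ.image p)
  have hf2 := hfib fun _ => True
  simp only [and_true] at hf2
  rw [← hcc, hf1, hf2, Finset.mul_sum, ← Finset.sum_sub_distrib]
  refine (Finset.abs_sum_le_sum_abs _ _).trans ?_
  refine (Finset.sum_le_sum fun β hβ => h1 β (by
    rw [hLL] at hβ
    exact (Finset.mem_filter.1 hβ).2)).trans ?_
  rw [Finset.sum_add_distrib, ← Finset.mul_sum, Finset.sum_const, nsmul_eq_mul]
  have h5 : ((LL.card : ℕ) : ℝ) ≤ 3 ^ (S₀.card * Fintype.card ι) := by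
    have h6 : LL.card ≤ Fintype.card (ι → S₀ → ZMod 3) :=
      Finset.card_le_univ _
    rw [Fintype.card_fun, Fintype.card_fun, ZMod.card, Fintype.card_coe, ← pow_mul] at h6
    exact_mod_cast h6
  have h6 := mul_le_mul_of_nonneg_right h5 hR0
  rw [pow_add, mul_assoc, ← hR]
  linarith

end Pool.Agent.R419.KL
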