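import Pool.Agent.Y703.XL.InfB

/-!
# Project KL: the `3`-Selmer group of `y² + D y = x³`
-/

set_option autoImplicit false
set_option linter.unusedSectionVars false
set_option linter.unusedVariables false

open scoped Classical

namespace Pool.Agent.R419.KL

open WeierstrassCurve NumberField
open Pool.Agent.TH841.SH.D (Pt act Gal Coch)
open Pool.Agent.TH841.NF.D (IsShaCoc shaCoc)
open Pool.Agent.Y703.XL.Inf

variable {K : Type} [Field K] [NumberField K] {D z : K}

/-- the continuous cocycles with values in `E[3]` that are coboundaries in the curve at all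
places -/
def coc3 (D : K) : AddSubgroup (Coch (E1 D)) where
  carrier := {f | IsShaCoc (E1 D) f ∧ ∀ σ, 3 • f σ = 0}
  zero_mem' := ⟨(shaCoc (E1 D)).zero_mem, fun σ => smul_zero _⟩
  add_mem' := fun {f g} hf hg => ⟨(shaCoc (E1 D)).add_mem hf.1 hg.1, fun σ => by
    show 3 • (f σ + g σ) = 0
    rw [smul_add, hf.2, hg.2, add_zero]⟩
  neg_mem' := fun {f} hf => ⟨(shaCoc (E1 D)).neg_mem hf.1, fun σ => by
    show 3 • -(f σ) = 0
    rw [smul_neg, hf.2, neg_zero]⟩

/-- the coboundaries of the points of `E[3]` -/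
def cob3 (D : K) : AddSubgroup (Coch (E1 D)) where
  carrier := {f | ∃ P : Pt (E1 D) (AlgebraicClosure K), 3 • P = 0 ∧
    ∀ σ : Gal K, f σ = act (E1 D) σ.toAlgHom P - P}
  zero_mem' := ⟨0, smul_zero _, fun σ => by
    show (0 : Pt (E1 D) (AlgebraicClosure K)) = _
    rw [map_zero, sub_zero]⟩
  add_mem' := fun {f g} hf hg => by
    obtain ⟨P, hn, hP⟩ := hf
    obtain ⟨Q, hm, hQ⟩ := hg
    refine ⟨P + Q, by rw [smul_add, hn, hm, add_zero], fun σ => ?_⟩
    show f σ + g σ = _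
    rw [hP, hQ, map_add]
    abel
  neg_mem' := fun {f} hf => by
    obtain ⟨P, hn, hP⟩ := hf
    refine ⟨-P, by rw [smul_neg, hn, neg_zero], fun σ => ?_⟩
    show -f σ = _
    rw [hP, map_neg]
    abel

/-- the `3`-Selmer group -/
def Sel3 (D : K) : Type := coc3 D ⧸ (cob3 D).addSubgroupOf (coc3 D)

lemma coc3_le : coc3 D ≤ selCoc D := fun f hf => ⟨hf.1, fun σ => ⟨1, by rw [pow_one]; exact hf.2 σ⟩⟩

/-- the map to the `3^∞`-Selmer group -/
noncomputable def th3 (D : K) : coc3 D →+ SelInf D :=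
  (QuotientAddGroup.mk' ((cobInf D).addSubgroupOf (selCoc D))).comp
    (AddSubgroup.inclusion coc3_le)

lemma th3_apply (f : coc3 D) : th3 D f = cls (AddSubgroup.inclusion coc3_le f) := rfl

lemma th3_ker (f : coc3 D) : f ∈ (th3 D).ker ↔ f.1 ∈ cobInf D := by
  rw [AddMonoidHom.mem_ker, th3_apply, cls_eq_zero]
  rfl

/-- the elements of order three of the `3^∞`-Selmer group -/
def tor3 (D : K) : AddSubgroup (SelInf D) where
  carrier := {x | 3 • x = 0}
  zero_mem' := smul_zero _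
  add_mem' := fun {x y} hx hy => by
    show 3 • (x + y) = 0
    rw [smul_add, show 3 • x = 0 from hx, show 3 • y = 0 from hy, add_zero]
  neg_mem' := fun {x} hx => by
    show 3 • -x = 0
    rw [smul_neg, show 3 • x = 0 from hx, neg_zero]

lemma div3 (hD : D ≠ 0) (hz : z ^ 2 + z + 1 = 0) (P : Pt (E1 D) (AlgebraicClosure K)) :
    ∃ Q : Pt (E1 D) (AlgebraicClosure K), 3 • Q = P := by
  obtain ⟨Q, hQ⟩ := ph_surj hD hz (-P)
  obtain ⟨R, rfl⟩ := ph_surj hD hz Q
  exact ⟨R, by rw [ph_ph hD hz] at hQ; exact neg_injective hQ⟩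

lemma cls_nsmul (n : ℕ) (f : selCoc D) : n • cls f = cls (n • f) := rfl

lemma th3_range (hD : D ≠ 0) (hz : z ^ 2 + z + 1 = 0) : (th3 D).range = tor3 D := by
  ext x
  constructor
  · rintro ⟨f, rfl⟩
    show 3 • th3 D f = 0
    rw [th3_apply, cls_nsmul, cls_eq_zero]
    have h1 : (3 • AddSubgroup.inclusion coc3_le f).1 = (0 : Coch (E1 D)) :=
      funext fun σ => f.2.2 σ
    rw [h1]
    exact (cobInf D).zero_mem
  · intro hx
    obtain ⟨f, rfl⟩ : ∃ f : selCoc D, cls f = x := QuotientAddGroup.mk_surjective x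
    have hx' : 3 • cls f = 0 := hx
    rw [cls_nsmul, cls_eq_zero] at hx'
    obtain ⟨P, ⟨n, hn⟩, hP⟩ := hx'
    obtain ⟨Q, rfl⟩ := div3 hD hz P
    have hQ : 3 ^ (n + 1) • Q = 0 := by rw [pow_succ, mul_smul, hn]
    have hm : f.1 - cbf Q ∈ coc3 D := by
      refine ⟨(shaCoc (E1 D)).sub_mem f.2.1 (cbf_sha Q), fun σ => ?_⟩
      show 3 • (f.1 σ - (act (E1 D) σ.toAlgHom Q - Q)) = 0
      have hP' : 3 • f.1 σ = act (E1 D) σ.toAlgHom (3 • Q) - 3 • Q := hP σ
      rw [smul_sub, hP', smul_sub, map_nsmul, sub_self]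
    refine ⟨⟨f.1 - cbf Q, hm⟩, ?_⟩
    rw [th3_apply, ← sub_eq_zero]
    have h2 : cls (AddSubgroup.inclusion coc3_le ⟨f.1 - cbf Q, hm⟩) - cls f =
        cls (AddSubgroup.inclusion coc3_le ⟨f.1 - cbf Q, hm⟩ - f) := rfl
    rw [h2, cls_eq_zero]
    have h3 : (AddSubgroup.inclusion coc3_le ⟨f.1 - cbf Q, hm⟩ - f).1 = -cbf Q := by
      show f.1 - cbf Q - f.1 = -cbf Q
      abel
    rw [h3]
    exact (cobInf D).neg_mem ⟨Q, ⟨_, hQ⟩, fun σ => rfl⟩

/-- the multiples by three of the points with the same coboundary -/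
lemma three_uniq (hD : D ≠ 0) (hz : z ^ 2 + z + 1 = 0) (hc : ∀ t : K, t ^ 3 ≠ D)
    {P Q : Pt (E1 D) (AlgebraicClosure K)} {n m : ℕ} (hP : 3 ^ n • P = 0) (hQ : 3 ^ m • Q = 0)
    (h : ∀ σ : Gal K, act (E1 D) σ.toAlgHom P - P = act (E1 D) σ.toAlgHom Q - Q) :
    3 • P = 3 • Q := by
  have h1 : ∀ σ : Gal K, act (E1 D) σ.toAlgHom (P - Q) = P - Q := by
    intro σ
    rw [map_sub, ← sub_eq_zero]
    have h2 := sub_eq_zero.2 (h σ)
    rw [← h2]
    abel
  have h2 : 3 ^ (n + m) • (P - Q) = 0 := by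
    have e1 : 3 ^ (n + m) • P = 0 := by rw [add_comm, pow_add, mul_smul, hP, smul_zero]
    have e2 : 3 ^ (n + m) • Q = 0 := by rw [pow_add, mul_smul, hQ, smul_zero]
    rw [smul_sub, e1, e2, sub_zero]
  have h3 := fix_tor hD hz hc h1 h2
  have h4 := congrArg (ph hz) h3
  rw [ph_ph hD hz, map_zero, neg_eq_zero, smul_sub, sub_eq_zero] at h4
  exact h4

lemma ker3 (f : (th3 D).ker) : ∃ P : Pt (E1 D) (AlgebraicClosure K), (∃ n : ℕ, 3 ^ n • P = 0) ∧
    ∀ σ : Gal K, f.1.1 σ = act (E1 D) σ.toAlgHom P - P := (th3_ker f.1).1 f.2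

/-- three times the point of a coboundary -/
noncomputable def kap (hD : D ≠ 0) (hz : z ^ 2 + z + 1 = 0) (hc : ∀ t : K, t ^ 3 ≠ D) :
    (th3 D).ker →+ Pt (E1 D) (AlgebraicClosure K) where
  toFun f := 3 • (ker3 f).choose
  map_zero' := by
    obtain ⟨⟨n, hn⟩, h2⟩ := (ker3 (0 : (th3 D).ker)).choose_spec
    have h3 := three_uniq hD hz hc hn (Q := 0) (m := 0) (smul_zero _) fun σ => by
      rw [← h2 σ, map_zero, sub_zero]
      rfl
    rw [h3, smul_zero]
  map_add' f g := by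
    obtain ⟨⟨n, hn⟩, h2⟩ := (ker3 (f + g)).choose_spec
    obtain ⟨⟨n1, hn1⟩, h21⟩ := (ker3 f).choose_spec
    obtain ⟨⟨n2, hn2⟩, h22⟩ := (ker3 g).choose_spec
    have hsum : 3 ^ (n1 + n2) • ((ker3 f).choose + (ker3 g).choose) = 0 := by
      rw [smul_add]
      have e1 : 3 ^ (n1 + n2) • (ker3 f).choose = 0 := by
        rw [add_comm, pow_add, mul_smul, hn1, smul_zero]
      have e2 : 3 ^ (n1 + n2) • (ker3 g).choose = 0 := by
        rw [pow_add, mul_smul, hn2, smul_zero]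
      rw [e1, e2, add_zero]
    have h3 := three_uniq hD hz hc hn hsum fun σ => by
      rw [← h2 σ, map_add]
      show f.1.1 σ + g.1.1 σ = _
      rw [h21, h22]
      abel
    rw [h3, smul_add]

lemma kap_of (hD : D ≠ 0) (hz : z ^ 2 + z + 1 = 0) (hc : ∀ t : K, t ^ 3 ≠ D) (f : (th3 D).ker)
    {P : Pt (E1 D) (AlgebraicClosure K)} {n : ℕ} (hn : 3 ^ n • P = 0)
    (h : ∀ σ : Gal K, f.1.1 σ = act (E1 D) σ.toAlgHom P - P) : kap hD hz hc f = 3 • P := by
  obtain ⟨⟨m, hm⟩, h2⟩ := (ker3 f).choose_spec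
  exact three_uniq hD hz hc hm hn fun σ => by rw [← h2 σ, h σ]

lemma kap_ker (hD : D ≠ 0) (hz : z ^ 2 + z + 1 = 0) (hc : ∀ t : K, t ^ 3 ≠ D) (f : (th3 D).ker) :
    f ∈ (kap hD hz hc).ker ↔ f.1.1 ∈ cob3 D := by
  rw [AddMonoidHom.mem_ker]
  constructor
  · intro h
    obtain ⟨⟨m, hm⟩, h2⟩ := (ker3 f).choose_spec
    exact ⟨(ker3 f).choose, h, h2⟩
  · rintro ⟨P, hP, h⟩
    rw [kap_of hD hz hc f (n := 1) (by rw [pow_one]; exact hP) h, hP]

lemma kap_range (hD : D ≠ 0) (hz : z ^ 2 + z + 1 = 0) (hc : ∀ t : K, t ^ 3 ≠ D) :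
    ((kap hD hz hc).range : Set (Pt (E1 D) (AlgebraicClosure K))) = {P | ph hz P = 0} := by
  ext R
  constructor
  · rintro ⟨f, rfl⟩
    obtain ⟨⟨m, hm⟩, h2⟩ := (ker3 f).choose_spec
    show ph hz (3 • (ker3 f).choose) = 0
    refine fix_tor hD hz hc (n := m) (fun σ => ?_) (by rw [smul_comm, hm, smul_zero])
    have h3 := f.1.2.2 σ
    rw [h2, smul_sub, sub_eq_zero] at h3
    rw [map_nsmul]
    exact h3
  · intro hR
    obtain ⟨P, rfl⟩ := div3 hD hz R
    have hR' : ph hz (3 • P) = 0 := hR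
    have h0 : 3 • (3 • P) = 0 := by
      have h1 := congrArg (ph hz) hR'
      rw [ph_ph hD hz, map_zero, neg_eq_zero] at h1
      exact h1
    have h9 : 3 ^ 2 • P = 0 := by rw [pow_two, mul_smul]; exact h0
    have hm : cbf P ∈ coc3 D := by
      refine ⟨cbf_sha P, fun σ => ?_⟩
      show 3 • (act (E1 D) σ.toAlgHom P - P) = 0
      rw [smul_sub, ← map_nsmul, ker_fix hD hz hR', sub_self]
    have hk : (⟨cbf P, hm⟩ : coc3 D) ∈ (th3 D).ker := (th3_ker _).2 ⟨P, ⟨2, h9⟩, fun σ => rfl⟩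
    exact ⟨⟨_, hk⟩, kap_of hD hz hc _ h9 fun σ => rfl⟩

/-- the kernel of the endomorphism has three elements -/
lemma ph_ker_card (hD : D ≠ 0) (hz : z ^ 2 + z + 1 = 0) :
    Nat.card {P : Pt (E1 D) (AlgebraicClosure K) | ph hz P = 0} = 3 := by
  have h0 : ((E1 D).baseChange (AlgebraicClosure K)).toAffine.Nonsingular 0 0 :=
    ns_of hD (by ring)
  have hset : {P : Pt (E1 D) (AlgebraicClosure K) | ph hz P = 0} =
      {0, pp 0 0 h0, -pp 0 0 h0} := by
    ext R
    constructor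
    · intro hR
      rcases (ph_ker hD hz R).1 hR with h | ⟨y, hn, rfl⟩
      · exact Or.inl h
      · right
        have h2 : y ^ 2 + algebraMap K _ D * y = 0 := by rw [(eqn _ _).1 hn.1]; ring
        have h3 : y * (y + algebraMap K _ D) = 0 := by linear_combination h2
        rcases mul_eq_zero.1 h3 with h4 | h4
        · exact Or.inl (pp_ext _ _ rfl h4)
        · right
          show pp 0 y hn = -pp 0 0 h0
          rw [neg_pp]
          exact pp_ext _ _ rfl (by linear_combination h4)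
    · rintro (rfl | rfl | h)
      · exact map_zero _
      · exact ph_0 hD hz h0
      · rw [Set.mem_singleton_iff.1 h]
        show ph hz (-pp 0 0 h0) = 0
        rw [map_neg, ph_0 hD hz h0, neg_zero]
  have hne : (pp 0 0 h0 : Pt (E1 D) (AlgebraicClosure K)) ≠ -pp 0 0 h0 := by
    rw [neg_pp]
    intro h
    have h1 := (pp_inj h).2
    apply hD
    have h2 : algebraMap K (AlgebraicClosure K) D = 0 := by linear_combination h1
    exact (map_eq_zero _).1 h2
  rw [Nat.card_coe_set_eq, hset, Set.ncard_eq_three]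
  exact ⟨_, _, _, (pp_ne h0).symm, fun h => pp_ne h0 (neg_eq_zero.1 h.symm), hne, rfl⟩

/-- **The order of the `3`-Selmer group.** -/
theorem sel3_card (hD : D ≠ 0) (hz : z ^ 2 + z + 1 = 0) (hc : ∀ t : K, t ^ 3 ≠ D) :
    Nat.card (Sel3 D) = 3 * Nat.card (tor3 D) := by
  have hle : (cob3 D).addSubgroupOf (coc3 D) ≤ (th3 D).ker := by
    intro f hf
    rw [AddSubgroup.mem_addSubgroupOf] at hf
    obtain ⟨P, hP, h⟩ := hf
    exact (th3_ker f).2 ⟨P, ⟨1, by rw [pow_one]; exact hP⟩, h⟩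
  have h1 : Nat.card (Sel3 D) = ((cob3 D).addSubgroupOf (coc3 D)).index := rfl
  have h2 := AddSubgroup.relIndex_mul_index hle
  have h3 : (th3 D).ker.index = Nat.card (tor3 D) := by
    rw [AddSubgroup.index_ker, th3_range hD hz]
  have h4 : ((cob3 D).addSubgroupOf (coc3 D)).relIndex (th3 D).ker = 3 := by
    have h5 : ((cob3 D).addSubgroupOf (coc3 D)).addSubgroupOf (th3 D).ker =
        (kap hD hz hc).ker := by
      ext f
      rw [kap_ker]
      rfl
    show (((cob3 D).addSubgroupOf (coc3 D)).addSubgroupOf (th3 D).ker).index = 3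
    rw [h5, AddSubgroup.index_ker]
    have h6 : Nat.card (kap hD hz hc).range =
        Nat.card ((kap hD hz hc).range : Set (Pt (E1 D) (AlgebraicClosure K))) := rfl
    rw [h6, kap_range hD hz hc]
    exact ph_ker_card hD hz
  rw [h1, ← h2, h4, h3]

/-! ### the endomorphism of the Selmer group -/

/-- the endomorphism on the cocycles -/
noncomputable def phc (hz : z ^ 2 + z + 1 = 0) : selCoc D →+ selCoc D where
  toFun f := ⟨fun σ => ph hz (f.1 σ), ph_sel hz f.2⟩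
  map_zero' := Subtype.ext (funext fun σ => map_zero _)
  map_add' f g := Subtype.ext (funext fun σ => map_add _ _ _)

lemma phc_cob (hz : z ^ 2 + z + 1 = 0) : (cobInf D).addSubgroupOf (selCoc D) ≤
    ((cobInf D).addSubgroupOf (selCoc D)).comap (phc hz) := by
  intro f hf
  rw [AddSubgroup.mem_addSubgroupOf] at hf
  obtain ⟨P, ⟨n, hn⟩, hP⟩ := hf
  rw [AddSubgroup.mem_comap, AddSubgroup.mem_addSubgroupOf]
  refine ⟨ph hz P, ⟨n, by rw [← map_nsmul, hn, map_zero]⟩, fun σ => ?_⟩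
  show ph hz (f.1 σ) = _
  have h1 : f.1 σ = act (E1 D) σ.toAlgHom P - P := hP σ
  rw [h1, map_sub, act_ph]

/-- the endomorphism of the Selmer group -/
noncomputable def Phi (D : K) (hz : z ^ 2 + z + 1 = 0) : SelInf D →+ SelInf D :=
  QuotientAddGroup.map ((cobInf D).addSubgroupOf (selCoc D)) ((cobInf D).addSubgroupOf (selCoc D))
    (phc hz) (phc_cob hz)

lemma Phi_cls (hz : z ^ 2 + z + 1 = 0) (f : selCoc D) : Phi D hz (cls f) = cls (phc hz f) := rfl

lemma Phi_Phi (hD : D ≠ 0) (hz : z ^ 2 + z + 1 = 0) (x : SelInf D) :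
    Phi D hz (Phi D hz x) = -(3 • x) := by
  obtain ⟨f, rfl⟩ : ∃ f : selCoc D, cls f = x := QuotientAddGroup.mk_surjective x
  rw [Phi_cls, Phi_cls, cls_nsmul]
  have h1 : phc hz (phc hz f) = -(3 • f) :=
    Subtype.ext (funext fun σ => ph_ph hD hz (f.1 σ))
  rw [h1]
  rfl

lemma Phi_ker (hz : z ^ 2 + z + 1 = 0) : ((Phi D hz).ker : Set (SelInf D)) = killed z D := by
  ext x
  obtain ⟨f, rfl⟩ : ∃ f : selCoc D, cls f = x := QuotientAddGroup.mk_surjective x
  have h0 : cls f ∈ ((Phi D hz).ker : Set (SelInf D)) ↔ (phc hz f).1 ∈ cobInf D := by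
    rw [SetLike.mem_coe, AddMonoidHom.mem_ker, Phi_cls, cls_eq_zero]
  rw [h0]
  constructor
  · intro h
    refine ⟨f, rfl, ?_⟩
    rw [rot_coch hz]
    exact h
  · rintro ⟨g, hg, h⟩
    rw [rot_coch hz] at h
    have h1 : (phc hz g).1 ∈ cobInf D := h
    rw [← cls_eq_zero, ← Phi_cls, hg, Phi_cls, cls_eq_zero] at h1
    exact h1

/-- **The `3`-Selmer group and the kernel of `√-3`.** -/
theorem sel3_facts (hD : D ≠ 0) (hz : z ^ 2 + z + 1 = 0) (hc : ∀ t : K, t ^ 3 ≠ D) {r : ℕ}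
    (hr : (killed z D).ncard = 3 ^ r) :
    ∃ s : ℕ, Nat.card (Sel3 D) = 3 ^ (s + 1) ∧ r ≤ s ∧ s ≤ 2 * r := by
  have hkf : (killed z D).Finite := Set.finite_of_ncard_ne_zero (by rw [hr]; positivity)
  have hkc : Nat.card (Phi D hz).ker = 3 ^ r := by
    have h1 : Nat.card (Phi D hz).ker = ((Phi D hz).ker : Set (SelInf D)).ncard :=
      Nat.card_coe_set_eq _
    rw [h1, Phi_ker hz, hr]
  have hkfin : Finite (Phi D hz).ker := Nat.finite_of_card_ne_zero (by rw [hkc]; positivity)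
  have hle : (Phi D hz).ker ≤ tor3 D := by
    intro x hx
    have h1 : Phi D hz x = 0 := hx
    have h2 := Phi_Phi hD hz x
    rw [h1, map_zero] at h2
    exact neg_eq_zero.1 h2.symm
  -- the restriction
  have hmem : ∀ x : tor3 D, Phi D hz x.1 ∈ (Phi D hz).ker := by
    intro x
    rw [AddMonoidHom.mem_ker, Phi_Phi hD hz]
    have h1 : 3 • x.1 = 0 := x.2
    rw [h1, neg_zero]
  obtain ⟨g, hg⟩ : ∃ g : tor3 D →+ (Phi D hz).ker, ∀ x, (g x).1 = Phi D hz x.1 :=
    ⟨((Phi D hz).comp (tor3 D).subtype).codRestrict (Phi D hz).ker hmem, fun x => rfl⟩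
  have hgker : Nat.card g.ker = 3 ^ r := by
    rw [← hkc]
    refine Nat.card_congr (Equiv.ofBijective (fun x : g.ker => (⟨x.1.1, ?_⟩ : (Phi D hz).ker)) ⟨?_, ?_⟩)
    · rw [AddMonoidHom.mem_ker, ← hg]
      have h1 : g x.1 = 0 := x.2
      rw [h1]
      rfl
    · intro x y hxy
      have h1 : x.1.1 = y.1.1 := congrArg (fun w : (Phi D hz).ker => w.1) hxy
      exact Subtype.ext (Subtype.ext h1)
    · intro y
      refine ⟨⟨⟨y.1, hle y.2⟩, ?_⟩, rfl⟩
      rw [AddMonoidHom.mem_ker]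
      apply Subtype.ext
      rw [hg]
      exact y.2
  have hgr : Nat.card g.range ≤ 3 ^ r := by
    rw [← hkc]
    exact Nat.card_le_card_of_injective _ Subtype.val_injective
  have hcard : Nat.card (tor3 D) = 3 ^ r * Nat.card g.range := by
    have h1 : Nat.card g.ker * g.ker.index = Nat.card (tor3 D) := AddSubgroup.card_mul_index _
    rw [AddSubgroup.index_ker, hgker] at h1
    exact h1.symm
  have hgpos : 0 < Nat.card g.range := by
    have : Finite g.range := Finite.of_injective _ Subtype.val_injective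
    exact Nat.card_pos
  have hpos : Nat.card (tor3 D) ≠ 0 := by
    rw [hcard]
    positivity
  have hfin : Finite (tor3 D) := Nat.finite_of_card_ne_zero hpos
  -- a power of three
  obtain ⟨s, hs⟩ : ∃ s : ℕ, Nat.card (tor3 D) = 3 ^ s := by
    have hmod : ∀ x : tor3 D, 3 • x = 0 := fun x => Subtype.ext x.2
    obtain ⟨inst⟩ : Nonempty (Module (ZMod 3) (tor3 D)) := ⟨AddCommGroup.zmodModule hmod⟩
    have h2 : Nat.card (tor3 D) = 3 ^ Module.finrank (ZMod 3) (tor3 D) := by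
      rw [Module.natCard_eq_pow_finrank (K := ZMod 3), Nat.card_zmod]
    exact ⟨_, h2⟩
  refine ⟨s, ?_, ?_, ?_⟩
  · rw [sel3_card hD hz hc, hs, pow_succ, mul_comm]
  · have h1 : 3 ^ r ≤ 3 ^ s := by
      rw [← hs, hcard]
      exact Nat.le_mul_of_pos_right _ hgpos
    exact (Nat.pow_le_pow_iff_right (by norm_num)).1 h1
  · have h1 : 3 ^ s ≤ 3 ^ (2 * r) := by
      rw [← hs, hcard, two_mul, pow_add]
      exact Nat.mul_le_mul_left _ hgr
    exact (Nat.pow_le_pow_iff_right (by norm_num)).1 h1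

end Pool.Agent.R419.KL
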