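import Pool.Agent.R419.KL.Fin
import Pool.Agent.R419.KL.Sel3

/-!
# Project KL: consequences for the `3`-Selmer groups and the ranks
-/

set_option autoImplicit false
set_option linter.unusedVariables false
set_option linter.unusedSectionVars false

open scoped Classical

namespace Pool.Agent.R419.KL

open NumberField Filter
open Pool.Agent.Y692.QS (Ei nr)
open Pool.Agent.Y703.XL (cr)
open Pool.Agent.Y696.CTK (ED Tri)
open Pool.Agent.XL6 (SelK)
open Pool.Agent.R419.KF (ClsKC)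
open Pool.Agent.Y703.XL.Inf (killed)

section
variable {K : Type} [Field K] [NumberField K]

theorem fin_K (K : Type) [Field K] [NumberField K] [IsCyclotomicExtension {3} ℚ K] (X : ℕ) :
    {D : 𝓞 K | Algebra.norm ℤ D ≤ X}.Finite := by
  obtain ⟨⟨j, hj⟩, -⟩ := Pool.Agent.Y455.CTK.jex K
  refine ((Pool.Agent.Y699.E.fin_norm_le X).image j).subset ?_
  intro D hD
  obtain ⟨z, rfl⟩ := j.surjective D
  refine ⟨z, ?_, rfl⟩
  have h1 : Algebra.norm ℤ (j z) ≤ X := hD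
  rw [hj, ← Pool.Agent.Y699.E.nrm_cast] at h1
  exact_mod_cast h1

/-- the proportion -/
noncomputable def prp (P : 𝓞 K → Prop) (X : ℕ) : ℝ :=
  ({D : 𝓞 K | Algebra.norm ℤ D ≤ X ∧ ClsKC D ∧ P D}.ncard : ℝ) /
    ({D : 𝓞 K | Algebra.norm ℤ D ≤ X ∧ ClsKC D}.ncard : ℝ)

theorem prp_mono [IsCyclotomicExtension {3} ℚ K] {P Q : 𝓞 K → Prop}
    (h : ∀ D, ClsKC D → P D → Q D) (X : ℕ) : prp P X ≤ prp Q X := by
  unfold prp
  have h1 : {D : 𝓞 K | Algebra.norm ℤ D ≤ X ∧ ClsKC D ∧ P D}.ncard ≤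
      {D : 𝓞 K | Algebra.norm ℤ D ≤ X ∧ ClsKC D ∧ Q D}.ncard :=
    Set.ncard_le_ncard (fun D hD => ⟨hD.1, hD.2.1, h D hD.2.1 hD.2.2⟩)
      ((fin_K K X).subset fun D hD => hD.1)
  have h2 : ({D : 𝓞 K | Algebra.norm ℤ D ≤ X ∧ ClsKC D ∧ P D}.ncard : ℝ) ≤
      ({D : 𝓞 K | Algebra.norm ℤ D ≤ X ∧ ClsKC D ∧ Q D}.ncard : ℝ) := by exact_mod_cast h1
  exact div_le_div_of_nonneg_right h2 (Nat.cast_nonneg _)

theorem prp_congr {P Q : 𝓞 K → Prop} (h : ∀ D, ClsKC D → (P D ↔ Q D)) (X : ℕ) :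
    prp P X = prp Q X := by
  unfold prp
  have h1 : {D : 𝓞 K | Algebra.norm ℤ D ≤ X ∧ ClsKC D ∧ P D} =
      {D : 𝓞 K | Algebra.norm ℤ D ≤ X ∧ ClsKC D ∧ Q D} := by
    ext D
    exact and_congr_right fun _ => and_congr_right fun hD => h D hD
  rw [h1]

theorem prp_add [IsCyclotomicExtension {3} ℚ K] {P Q : 𝓞 K → Prop}
    (h : ∀ D, ClsKC D → P D → ¬ Q D) (X : ℕ) :
    prp (fun D => P D ∨ Q D) X = prp P X + prp Q X := by
  unfold prp
  rw [← add_div]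
  congr 1
  have h1 : {D : 𝓞 K | Algebra.norm ℤ D ≤ X ∧ ClsKC D ∧ (P D ∨ Q D)} =
      {D : 𝓞 K | Algebra.norm ℤ D ≤ X ∧ ClsKC D ∧ P D} ∪
      {D : 𝓞 K | Algebra.norm ℤ D ≤ X ∧ ClsKC D ∧ Q D} := by
    ext D
    constructor
    · rintro ⟨h1, h2, h3 | h3⟩
      · exact Or.inl ⟨h1, h2, h3⟩
      · exact Or.inr ⟨h1, h2, h3⟩
    · rintro (⟨h1, h2, h3⟩ | ⟨h1, h2, h3⟩)
      · exact ⟨h1, h2, Or.inl h3⟩
      · exact ⟨h1, h2, Or.inr h3⟩
  rw [h1, Set.ncard_union_eq _ ((fin_K K X).subset fun D hD => hD.1)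
    ((fin_K K X).subset fun D hD => hD.1)]
  · push_cast
    rfl
  · rw [Set.disjoint_left]
    rintro D ⟨-, h2, h3⟩ ⟨-, -, h4⟩
    exact h D h2 h3 h4

/-- the cumulative law -/
theorem cumT (K : Type) [Field K] [NumberField K] [IsCyclotomicExtension {3} ℚ K] (r : ℕ) :
    Tendsto (prp (fun D : 𝓞 K => (SelK (D : K)).ncard ≤ 3 ^ r)) atTop
      (nhds (∑ i ∈ Finset.range r, cr i)) := by
  induction r with
  | zero =>
    rw [Finset.range_zero, Finset.sum_empty]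
    refine (tendsto_const_nhds (x := (0 : ℝ))).congr fun X => ?_
    unfold prp
    have h1 : {D : 𝓞 K | Algebra.norm ℤ D ≤ X ∧ ClsKC D ∧ (SelK (D : K)).ncard ≤ 3 ^ 0} = ∅ := by
      rw [Set.eq_empty_iff_forall_notMem]
      rintro D ⟨-, h2, h3⟩
      obtain ⟨⟨s, hs, -⟩, -⟩ := oneK h2
      rw [hs, pow_zero] at h3
      have h4 : 3 ^ 1 ≤ 3 ^ (s + 1) := Nat.pow_le_pow_right (by norm_num) (by omega)
      omega
    rw [h1, Set.ncard_empty, Nat.cast_zero, zero_div]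
  | succ r ih =>
    rw [Finset.sum_range_succ]
    refine (ih.add (lawK K r)).congr fun X => ?_
    have h1 : prp (fun D : 𝓞 K => (SelK (D : K)).ncard ≤ 3 ^ (r + 1)) X =
        prp (fun D : 𝓞 K => (SelK (D : K)).ncard ≤ 3 ^ r ∨ (SelK (D : K)).ncard = 3 ^ (r + 1)) X := by
      refine prp_congr (fun D hD => ?_) X
      obtain ⟨⟨s, hs, -⟩, -⟩ := oneK hD
      rw [hs, Nat.pow_le_pow_iff_right (by norm_num), Nat.pow_le_pow_iff_right (by norm_num),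
        Nat.pow_right_inj (by norm_num)]
      omega
    rw [h1, prp_add]
    · rfl
    · intro D hD h2 h3
      rw [h3] at h2
      have h4 : 3 ^ r < 3 ^ (r + 1) := Nat.pow_lt_pow_right (by norm_num) (by omega)
      omega

theorem ev_pos (K : Type) [Field K] [NumberField K] [IsCyclotomicExtension {3} ℚ K] :
    ∀ᶠ X : ℕ in atTop, (0 : ℝ) < ({D : 𝓞 K | Algebra.norm ℤ D ≤ X ∧ ClsKC D}.ncard : ℝ) := by
  obtain ⟨c, hc, X₀, h⟩ := (Pool.Agent.R419.KF.final K).1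
  filter_upwards [eventually_ge_atTop X₀, eventually_ge_atTop 1] with X h1 h2
  have h3 := h X h1
  have h4 : (1 : ℝ) ≤ X := by exact_mod_cast h2
  exact lt_of_lt_of_le (by positivity) h3

/-- many `D` with small groups -/
theorem small_of (K : Type) [Field K] [NumberField K] [IsCyclotomicExtension {3} ℚ K]
    (P : 𝓞 K → Prop) (r : ℕ) (hP : ∀ D : 𝓞 K, ClsKC D → (SelK (D : K)).ncard ≤ 3 ^ r → P D)
    (ε : ℝ) (hε : 0 < ε) :
    ∀ᶠ X : ℕ in atTop, ∑ i ∈ Finset.range r, cr i - ε ≤ prp P X := by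
  have h1 := (cumT K r).eventually (lt_mem_nhds (show ∑ i ∈ Finset.range r, cr i - ε <
    ∑ i ∈ Finset.range r, cr i by linarith))
  filter_upwards [h1] with X hX
  exact hX.le.trans (prp_mono hP X)

/-- many `D` with large groups -/
theorem large_of (K : Type) [Field K] [NumberField K] [IsCyclotomicExtension {3} ℚ K]
    (P : 𝓞 K → Prop) (r : ℕ) (hP : ∀ D : 𝓞 K, ClsKC D → 3 ^ (r + 1) ≤ (SelK (D : K)).ncard → P D)
    (ε : ℝ) (hε : 0 < ε) :
    ∀ᶠ X : ℕ in atTop, 1 - ∑ i ∈ Finset.range r, cr i - ε ≤ prp P X := by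
  have h1 := (cumT K r).eventually (gt_mem_nhds (show ∑ i ∈ Finset.range r, cr i <
    ∑ i ∈ Finset.range r, cr i + ε by linarith))
  filter_upwards [h1, ev_pos K] with X hX hpos
  have h2 : prp (fun D : 𝓞 K => (SelK (D : K)).ncard ≤ 3 ^ r ∨
      ¬ (SelK (D : K)).ncard ≤ 3 ^ r) X = 1 := by
    unfold prp
    have h3 : {D : 𝓞 K | Algebra.norm ℤ D ≤ X ∧ ClsKC D ∧ ((SelK (D : K)).ncard ≤ 3 ^ r ∨
        ¬ (SelK (D : K)).ncard ≤ 3 ^ r)} = {D : 𝓞 K | Algebra.norm ℤ D ≤ X ∧ ClsKC D} := by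
      ext D
      constructor
      · rintro ⟨a, b, -⟩
        exact ⟨a, b⟩
      · rintro ⟨a, b⟩
        exact ⟨a, b, em _⟩
    rw [h3, div_self hpos.ne']
  rw [prp_add (fun D _ h h' => h' h)] at h2
  have h4 : prp (fun D : 𝓞 K => ¬ (SelK (D : K)).ncard ≤ 3 ^ r) X ≤ prp P X := by
    refine prp_mono (fun D hD h => hP D hD ?_) X
    obtain ⟨⟨s, hs, -⟩, -⟩ := oneK hD
    rw [hs] at h ⊢
    rw [Nat.pow_le_pow_iff_right (by norm_num)] at h
    exact Nat.pow_le_pow_right (by norm_num) (by omega)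
  linarith

end

/-- **The `3`-Selmer groups.** -/
theorem finalSel3 (K : Type) [Field K] [NumberField K] [IsCyclotomicExtension {3} ℚ K] (ω : K)
    (hω : ω ^ 2 + ω + 1 = 0) :
    (∀ D : 𝓞 K, ClsKC D → ∃ r s : ℕ, (SelK (D : K)).ncard = 3 ^ (r + 1) ∧
      Nat.card (Sel3 (D : K)) = 3 ^ (s + 1) ∧ r ≤ s ∧ s ≤ 2 * r ∧
      Module.finrank ℤ (ED (D : K)).toAffine.Point ≤ 2 * r) ∧
    (∀ r : ℕ, Tendsto (prp (fun D : 𝓞 K => (SelK (D : K)).ncard = 3 ^ (r + 1))) atTop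
      (nhds (cr r))) ∧
    Tendsto (prp (fun D : 𝓞 K => Nat.card (Sel3 (D : K)) = 3)) atTop (nhds (cr 0)) ∧
    (∀ (r : ℕ) (ε : ℝ), 0 < ε →
      (∀ᶠ X : ℕ in atTop, ∑ i ∈ Finset.range (r + 1), cr i - ε ≤
        prp (fun D : 𝓞 K => Nat.card (Sel3 (D : K)) ≤ 3 ^ (2 * r + 1)) X) ∧
      ∀ᶠ X : ℕ in atTop, 1 - ∑ i ∈ Finset.range r, cr i - ε ≤
        prp (fun D : 𝓞 K => 3 ^ (r + 1) ≤ Nat.card (Sel3 (D : K))) X) := by
  have hone : ∀ D : 𝓞 K, ClsKC D → ∃ r s : ℕ, (SelK (D : K)).ncard = 3 ^ (r + 1) ∧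
      Nat.card (Sel3 (D : K)) = 3 ^ (s + 1) ∧ r ≤ s ∧ s ≤ 2 * r ∧
      Module.finrank ℤ (ED (D : K)).toAffine.Point ≤ 2 * r := by
    intro D hD
    obtain ⟨⟨r, hr, hrk⟩, -⟩ := oneK hD
    have key : (SelK (D : K)).ncard = 3 * (killed ω (D : K)).ncard :=
      Pool.Agent.Y703.XL.Inf.sel_card (ne_zero hD) hω (not_cube hD)
    have hk : (killed ω (D : K)).ncard = 3 ^ r := by
      rw [hr, pow_succ'] at key
      exact (Nat.eq_of_mul_eq_mul_left (by norm_num) key).symm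
    obtain ⟨s, hs, h1, h2⟩ := sel3_facts (ne_zero hD) hω (not_cube hD) hk
    exact ⟨r, s, hr, hs, h1, h2, hrk⟩
  refine ⟨hone, fun r => lawK K r, ?_, fun r ε hε => ⟨?_, ?_⟩⟩
  · refine (lawK K 0).congr fun X => ?_
    refine prp_congr (fun D hD => ?_) X
    obtain ⟨r, s, h1, h2, h3, h4, -⟩ := hone D hD
    rw [h1, h2, zero_add, pow_one]
    constructor
    · intro h
      have h5 : r = 0 := by
        by_contra hne
        have : 3 ^ 2 ≤ 3 ^ (r + 1) := Nat.pow_le_pow_right (by norm_num) (by omega)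
        omega
      have h6 : s = 0 := by omega
      rw [h6, zero_add, pow_one]
    · intro h
      have h5 : s = 0 := by
        by_contra hne
        have : 3 ^ 2 ≤ 3 ^ (s + 1) := Nat.pow_le_pow_right (by norm_num) (by omega)
        omega
      have h6 : r = 0 := by omega
      rw [h6, zero_add, pow_one]
  · refine small_of K _ (r + 1) (fun D hD h => ?_) ε hε
    obtain ⟨r', s, h1, h2, h3, h4, -⟩ := hone D hD
    rw [h1, Nat.pow_le_pow_iff_right (by norm_num)] at h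
    show Nat.card (Sel3 (D : K)) ≤ 3 ^ (2 * r + 1)
    rw [h2]
    exact Nat.pow_le_pow_right (by norm_num) (by omega)
  · refine large_of K _ r (fun D hD h => ?_) ε hε
    obtain ⟨r', s, h1, h2, h3, h4, -⟩ := hone D hD
    rw [h1, Nat.pow_le_pow_iff_right (by norm_num)] at h
    show 3 ^ (r + 1) ≤ Nat.card (Sel3 (D : K))
    rw [h2]
    exact Nat.pow_le_pow_right (by norm_num) (by omega)

end Pool.Agent.R419.KL
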