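import Pool.Agent.R419.KL.NS
import Pool.Agent.Y703.XL.InfC

/-!
# Project KL: the exact law of the Selmer groups, all cube-free `D` over `ℚ(ω)`

Joint work: the squarefree case is the project XL of helper703, helper696, helper697, helper170,
helper994, helper968, helper275, helper31 and others; extended here (helper419) to all the cube-free
`D`, by the method of `Pool/Agent/R419/KF`.
-/

set_option autoImplicit false
set_option linter.unusedVariables false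
set_option linter.unusedSectionVars false

open scoped Classical

namespace Pool.Agent.R419.KL

open NumberField IsDedekindDomain WeierstrassCurve
open Pool.Agent.Y692.QS (Ei nr)
open Pool.Agent.Y703.CT (Dt pD)
open Pool.Agent.Y703.XL (cr)
open Pool.Agent.Y696.CTK (Parts parts ED Tri)
open Pool.Agent.Y696.XK (img_ncard)
open Pool.Agent.XL6 (SelK KerV)
open Pool.Agent.R419.KF (ClsC ClsKC IsFactE cls_el ex_pair el clsC_iff card_cls low_Nt fact_dt)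
open Pool.Agent.Y703.XL.Inf (killed SelInf sel_card sel_triv)

section
variable {K : Type} [Field K] [NumberField K]

theorem ne_zero {D : 𝓞 K} (hD : ClsKC D) : (D : K) ≠ 0 := by
  intro h
  have h1 : D = 0 := by
    apply RingOfIntegers.coe_injective
    rw [map_zero]
    exact h
  have h2 := hD.2.1 0 (by rw [h1, zero_pow three_ne_zero])
  exact not_isUnit_zero h2

theorem not_cube [IsCyclotomicExtension {3} ℚ K] {D : 𝓞 K} (hD : ClsKC D) (t : K) :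
    t ^ 3 ≠ (D : K) := by
  intro h
  have ht : _root_.IsIntegral ℤ t := by
    apply _root_.IsIntegral.of_pow (n := 3) (by norm_num)
    rw [h]
    exact RingOfIntegers.isIntegral_coe D
  obtain ⟨s, rfl⟩ : ∃ s : 𝓞 K, (s : K) = t := ⟨⟨t, ht⟩, rfl⟩
  have h1 : s ^ 3 = D := by
    apply RingOfIntegers.coe_injective
    rw [map_pow]
    exact h
  obtain ⟨⟨j, hj⟩, -⟩ := Pool.Agent.Y455.CTK.jex K
  have h3 : IsUnit s := hD.2.1 s ⟨1, by rw [mul_one, h1]⟩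
  obtain ⟨z, rfl⟩ := j.surjective s
  have h4 : IsUnit z := (MulEquiv.isUnit_map j).1 h3
  have h5 := Pool.Agent.Y692.QS.isUnit_iff.1 h4
  apply hD.2.2
  rw [← h1, map_pow, hj, h5]
  norm_num

/-- the data of an element of the class -/
theorem cls_data (j : Ei ≃+* 𝓞 K) (hj : ∀ z : Ei, Algebra.norm ℤ (j z) = nr z) {D : 𝓞 K}
    (hD : ClsKC D) : ∃ (n : ℕ) (π : Fin (n + 1) → Ei) (e : Fin (n + 1) → ZMod 3), Dt π e ∧
      D = j (pD π e) ∧ ¬ (9 : ℤ) ∣ nr (pD π e) - 1 := by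
  obtain ⟨z, rfl⟩ := j.surjective D
  have hz := (clsC_iff j hj z).1 hD
  obtain ⟨M, S, hS, hM, rfl⟩ := ex_pair hz.1 hz.2.1
  obtain ⟨n, π, e, hdt, hel, -⟩ := data2 ((cls_el hS hM).1 hz)
  rw [hel] at hz ⊢
  exact ⟨n, π, e, hdt, rfl, hz.2.2⟩

/-- The Selmer group of `√-3`, for one `D`. -/
theorem oneK [IsCyclotomicExtension {3} ℚ K] {D : 𝓞 K} (hD : ClsKC D) :
    (∃ r : ℕ, (SelK (D : K)).ncard = 3 ^ (r + 1) ∧
      Module.finrank ℤ (ED (D : K)).toAffine.Point ≤ 2 * r) ∧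
    ∀ (ω : 𝓞 K) (n : ℕ) (π : Fin n → 𝓞 K) (e : Fin n → ZMod 3) (χ : Fin n → Fin n → ZMod 3),
      ω ^ 2 + ω + 1 = 0 → IsFactE ω D n π e χ → (SelK (D : K)).ncard = nLE e χ := by
  obtain ⟨⟨j, hj⟩, -⟩ := Pool.Agent.Y455.CTK.jex K
  constructor
  · obtain ⟨n, π, e, hdt, rfl, h9⟩ := cls_data j hj hD
    obtain ⟨h1, h2⟩ := main_pi (K := K) parts hdt h9 j
    obtain ⟨r, hr⟩ := ker_pow (π := π) (e := e)
    exact ⟨r, h1.trans hr, h2 r hr.le⟩
  · intro ω n π e χ hω h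
    obtain ⟨h1, h2⟩ := fact_dt j h
    have hn : Nonempty (Fin n) := by
      rw [← not_isEmpty_iff]
      intro hn
      apply hD.2.2
      rw [h.2.1, Finset.univ_eq_empty, Finset.prod_empty, map_one, sub_self]
      exact dvd_zero _
    have h9 : ¬ (9 : ℤ) ∣ nr (pD (fun i => j.symm (π i)) e) - 1 := by
      rw [h2, ← hj, RingEquiv.apply_symm_apply]
      exact hD.2.2
    have h3 := (main_pi (K := K) parts h1 h9 j).1
    rw [h2, RingEquiv.apply_symm_apply] at h3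
    rw [h3, ker_ncard j hj hω h]

end

/-- **The law over `K`.** -/
theorem lawK (K : Type) [Field K] [NumberField K] [IsCyclotomicExtension {3} ℚ K]
    (r : ℕ) : Filter.Tendsto (fun X : ℕ =>
      ({D : 𝓞 K | Algebra.norm ℤ D ≤ X ∧ ClsKC D ∧ (SelK (D : K)).ncard = 3 ^ (r + 1)}.ncard : ℝ) /
        ({D : 𝓞 K | Algebra.norm ℤ D ≤ X ∧ ClsKC D}.ncard : ℝ)) Filter.atTop (nhds (cr r)) := by
  obtain ⟨⟨j, hj⟩, -⟩ := Pool.Agent.Y455.CTK.jex K
  have hc9 := Pool.Agent.Y703.XL.t_C9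
  have e2 : ∀ X : ℕ, {D : 𝓞 K | Algebra.norm ℤ D ≤ X ∧ ClsKC D}.ncard =
      {D : Ei | nr D ≤ X ∧ ClsC D}.ncard := fun X =>
    img_ncard j hj X ClsC ClsKC fun D => (clsC_iff j hj D).symm
  have e1 : ∀ X : ℕ,
      {D : 𝓞 K | Algebra.norm ℤ D ≤ X ∧ ClsKC D ∧ (SelK (D : K)).ncard = 3 ^ (r + 1)}.ncard =
      {D : Ei | nr D ≤ X ∧ ClsC D ∧ (SelK (j D : K)).ncard = 3 ^ (r + 1)}.ncard := fun X =>
    img_ncard j hj X (fun D => ClsC D ∧ (SelK (j D : K)).ncard = 3 ^ (r + 1))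
      (fun D => ClsKC D ∧ (SelK (D : K)).ncard = 3 ^ (r + 1))
      fun D => and_congr_left fun _ => (clsC_iff j hj D).symm
  simp only [e1, e2]
  refine t_PR Pool.Agent.Y363.XK.t_BIL Pool.Agent.Y550.XK.NS.t_LOW
    (show (0 : ℝ) ≤ 3 ^ (r + 1) by positivity)
    (t_BOXL Pool.Agent.Y710.XK.t_EQ Pool.Agent.Y703.XL.t_LA r)
    (Pool.Agent.Y703.XL.cr_pos hc9 r).le (Pool.Agent.Y703.XL.cr_le hc9 r)
    (fun D => (SelK (j D : K)).ncard = 3 ^ (r + 1)) fun M S hMS => ?_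
  obtain ⟨n, π, e, hdt, hel, hg⟩ := data2 hMS
  have h9 := ((cls_el hMS.1 hMS.2.1).2 hMS).2.2
  unfold GrW
  rw [hg, hel]
  rw [hel] at h9
  rw [(main_pi (K := K) parts hdt h9 j).1]

/-- the limits are positive and sum to one, and the first one -/
theorem prob_facts : (∀ r, 0 < cr r) ∧ 0.639 < cr 0 ∧ cr 0 < 0.6391 ∧ HasSum cr 1 := by
  have hc9 := Pool.Agent.Y703.XL.t_C9
  have hp0 : cr 0 = Pool.Agent.Y703.XK.c9 := by
    unfold Pool.Agent.Y703.XL.cr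
    rw [Finset.prod_range_zero, div_one]
  refine ⟨Pool.Agent.Y703.XL.cr_pos hc9, ?_, ?_, Pool.Agent.Y703.XL.t_SUM'⟩
  · rw [hp0]
    exact hc9.2.2.2.1
  · rw [hp0]
    exact hc9.2.2.2.2

/-- **The final statement on the `3^∞`-Selmer groups.** -/
theorem finalInf (K : Type) [Field K] [NumberField K] [IsCyclotomicExtension {3} ℚ K] (ω : K)
    (hω : ω ^ 2 + ω + 1 = 0) :
    (∃ c : ℝ, 0 < c ∧ ∃ X₀ : ℕ, ∀ X : ℕ, X₀ ≤ X →
      c * X ≤ ({D : 𝓞 K | Algebra.norm ℤ D ≤ X ∧ ClsKC D}.ncard : ℝ)) ∧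
    (∀ D : 𝓞 K, ClsKC D →
      (∃ r : ℕ, (killed ω (D : K)).ncard = 3 ^ r ∧
        Module.finrank ℤ (ED (D : K)).toAffine.Point ≤ 2 * r) ∧
      ((killed ω (D : K)).ncard = 1 ↔ ∀ x : SelInf (D : K), x = 0) ∧
      (∀ (η : 𝓞 K) (n : ℕ) (π : Fin n → 𝓞 K) (e : Fin n → ZMod 3) (χ : Fin n → Fin n → ZMod 3),
        η ^ 2 + η + 1 = 0 → IsFactE η D n π e χ → 3 * (killed ω (D : K)).ncard = nLE e χ)) ∧
    (∀ r : ℕ, Filter.Tendsto (fun X : ℕ =>
      ({D : 𝓞 K | Algebra.norm ℤ D ≤ X ∧ ClsKC D ∧ (killed ω (D : K)).ncard = 3 ^ r}.ncard : ℝ) /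
        ({D : 𝓞 K | Algebra.norm ℤ D ≤ X ∧ ClsKC D}.ncard : ℝ)) Filter.atTop (nhds (cr r))) ∧
    Filter.Tendsto (fun X : ℕ =>
      ({D : 𝓞 K | Algebra.norm ℤ D ≤ X ∧ ClsKC D ∧ ∀ x : SelInf (D : K), x = 0}.ncard : ℝ) /
        ({D : 𝓞 K | Algebra.norm ℤ D ≤ X ∧ ClsKC D}.ncard : ℝ)) Filter.atTop (nhds (cr 0)) ∧
    (0.639 < cr 0 ∧ cr 0 < 0.6391 ∧ HasSum cr 1) := by
  have key : ∀ D : 𝓞 K, ClsKC D → (SelK (D : K)).ncard = 3 * (killed ω (D : K)).ncard :=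
    fun D hD => sel_card (ne_zero hD) hω (not_cube hD)
  have key2 : ∀ D : 𝓞 K, ClsKC D → ∀ r : ℕ,
      ((SelK (D : K)).ncard = 3 ^ (r + 1) ↔ (killed ω (D : K)).ncard = 3 ^ r) := by
    intro D hD r
    rw [key D hD, pow_succ']
    constructor
    · intro h
      exact Nat.eq_of_mul_eq_mul_left (by norm_num) h
    · intro h
      rw [h]
  have hlaw : ∀ r : ℕ, Filter.Tendsto (fun X : ℕ =>
      ({D : 𝓞 K | Algebra.norm ℤ D ≤ X ∧ ClsKC D ∧ (killed ω (D : K)).ncard = 3 ^ r}.ncard : ℝ) /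
        ({D : 𝓞 K | Algebra.norm ℤ D ≤ X ∧ ClsKC D}.ncard : ℝ)) Filter.atTop (nhds (cr r)) := by
    intro r
    refine (lawK K r).congr fun X => ?_
    have e1 : {D : 𝓞 K | Algebra.norm ℤ D ≤ X ∧ ClsKC D ∧ (SelK (D : K)).ncard = 3 ^ (r + 1)} =
        {D : 𝓞 K | Algebra.norm ℤ D ≤ X ∧ ClsKC D ∧ (killed ω (D : K)).ncard = 3 ^ r} := by
      ext D
      exact and_congr_right fun _ => and_congr_right fun hD => key2 D hD r
    rw [e1]
  refine ⟨(Pool.Agent.R419.KF.final K).1, fun D hD => ⟨?_, sel_triv (ne_zero hD) hω, ?_⟩, hlaw, ?_,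
    prob_facts.2⟩
  · obtain ⟨⟨r, hr, hr'⟩, -⟩ := oneK hD
    exact ⟨r, (key2 D hD r).1 hr, hr'⟩
  · intro η n π e χ hη h
    rw [← key D hD]
    exact (oneK hD).2 η n π e χ hη h
  · refine (hlaw 0).congr fun X => ?_
    have e1 : {D : 𝓞 K | Algebra.norm ℤ D ≤ X ∧ ClsKC D ∧ (killed ω (D : K)).ncard = 3 ^ 0} =
        {D : 𝓞 K | Algebra.norm ℤ D ≤ X ∧ ClsKC D ∧ ∀ x : SelInf (D : K), x = 0} := by
      ext D
      refine and_congr_right fun _ => and_congr_right fun hD => ?_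
      rw [pow_zero]
      exact sel_triv (ne_zero hD) hω
    rw [e1]

end Pool.Agent.R419.KL
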