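import Pool.Agent.R419.KL.Sum
import Pool.Agent.R419.KF.Fin
import Pool.Agent.Y696.XL.Res

/-!
# Project KL: the Selmer group and the pairs of sets of primes
-/

set_option autoImplicit false
set_option linter.unusedVariables false
set_option linter.unusedSectionVars false

open scoped Classical

namespace Pool.Agent.R419.KL

open Finset NumberField
open Pool.Agent.Y692.QS (Ei nr)
open Pool.Agent.Y715.T.Rec (cs nn)
open Pool.Agent.Y715.T.RecG (Pq)
open Pool.Agent.Y703.CT (Dt pD a_ne)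
open Pool.Agent.Y703.XK (S_BIL S_LOW)
open Pool.Agent.Y703.XL (cr)
open Pool.Agent.Y696.CTK (Parts parts ED)
open Pool.Agent.Y155.CT (a_mul a_cont)
open Pool.Agent.XL6 (SelK KerV SelH)
open Pool.Agent.R419.KF (wt wt_ne ClW ClsC ClsKC el el_ne cls_el ex_pair card_eq card_cls)

/-- the data of a pair -/
theorem data2 {M S : Finset Ei} (h : ClW M S) :
    ∃ (n : ℕ) (π : Fin (n + 1) → Ei) (e : Fin (n + 1) → ZMod 3), Dt π e ∧ el M S = pD π e ∧
      nSW M S = (KerV π e).ncard := by
  obtain ⟨hS, hM, h9⟩ := h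
  have hne : S.card ≠ 0 := by
    intro h0
    rw [card_eq_zero] at h0
    subst h0
    rw [subset_empty] at hM
    subst hM
    rw [prod_empty] at h9
    exact h9 rfl
  obtain ⟨n, hn⟩ := Nat.exists_eq_succ_of_ne_zero hne
  obtain ⟨eq, -⟩ : ∃ eq : S ≃ Fin (n + 1), True := ⟨S.equivFinOfCardEq hn, trivial⟩
  obtain ⟨π, hπ⟩ : ∃ π : Fin (n + 1) → Ei, π = fun i => (eq.symm i : Ei) := ⟨_, rfl⟩
  have hmem : ∀ i, π i ∈ S := fun i => by rw [hπ]; exact (eq.symm i).2
  have hinj : Function.Injective π := fun a b hab => eq.symm.injective (Subtype.ext (by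
    rw [hπ] at hab
    exact hab))
  have himg : Finset.univ.image π = S := by
    ext q
    rw [mem_image]
    constructor
    · rintro ⟨i, -, rfl⟩
      exact hmem i
    · intro hq
      refine ⟨eq ⟨q, hq⟩, mem_univ _, ?_⟩
      simp [hπ]
  refine ⟨n, π, fun i => wt M (π i), ⟨fun i => hS _ (hmem i), fun i j hij hd => ?_,
    fun i => wt_ne M _⟩, ?_, ?_⟩
  · exact hij (hinj (Pool.Agent.Y699.E.eq_of_dvd (hS _ (hmem j)) (hS _ (hmem i)) hd)).symm
  · unfold pD el
    have h2 : ∏ q ∈ S, q ^ (wt M q).val = ∏ i, π i ^ (wt M (π i)).val := by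
      rw [← himg, prod_image fun a _ b _ h => hinj h]
    rw [← h2]
    have h4 : ∏ q ∈ M, q = ∏ q ∈ S, if q ∈ M then q else 1 := by
      rw [prod_ite_mem, inter_eq_right.2 hM]
    rw [h4, ← prod_mul_distrib]
    refine prod_congr rfl fun q _ => ?_
    unfold wt
    split_ifs with hq
    · have : (2 : ZMod 3).val = 2 := by decide
      rw [this, pow_two]
    · have : (1 : ZMod 3).val = 1 := by decide
      rw [this, pow_one, mul_one]
  · rw [← Nat.card_coe_set_eq]
    unfold nSW
    refine Nat.card_congr ((Equiv.arrowCongr eq (Equiv.refl (ZMod 3))).subtypeEquiv fun v => ?_)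
    subst hπ
    constructor
    · intro h j
      have h1 := h (eq.symm j)
      rw [← Equiv.sum_comp eq.symm] at h1
      exact h1
    · intro h x
      obtain ⟨j, rfl⟩ := eq.symm.surjective x
      rw [← Equiv.sum_comp eq.symm]
      exact h j

/-- the proportion -/
theorem t_PR (h1 : S_BIL) (hLo : S_LOW) {P : Finset Ei → Finset Ei → Prop} {p k : ℝ}
    (hk : 0 ≤ k) (hB : BoxW P p k) (hp0 : 0 ≤ p) (hp1 : p ≤ 1) (T : Ei → Prop)
    (hT : ∀ M S : Finset Ei, ClW M S → (T (el M S) ↔ P M S)) :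
    Filter.Tendsto (fun X : ℕ => ({D : Ei | nr D ≤ X ∧ ClsC D ∧ T D}.ncard : ℝ) /
      ({D : Ei | nr D ≤ X ∧ ClsC D}.ncard : ℝ)) Filter.atTop (nhds p) := by
  refine (t_TOT h1 hLo hk hB hp0 hp1).congr fun X => ?_
  rw [card_cls, card_eq X P T hT]
  rfl

/-- the number of the solutions is a power of three, at least three -/
lemma ker_pow {J : Type} [Fintype J] [Nonempty J] {π : J → Ei} {e : J → ZMod 3} :
    ∃ r : ℕ, (KerV π e).ncard = 3 ^ (r + 1) := by
  let V : Submodule (ZMod 3) (J → ZMod 3) :=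
    { carrier := KerV π e
      zero_mem' := fun j => by simp
      add_mem' := fun {a b} ha hb j => by
        have h1 := ha j
        have h2 := hb j
        have h3 : ∑ i, e i * cs (π j) (π i) * ((a + b) i - (a + b) j) =
            ∑ i, e i * cs (π j) (π i) * (a i - a j) +
            ∑ i, e i * cs (π j) (π i) * (b i - b j) := by
          rw [← Finset.sum_add_distrib]
          exact Finset.sum_congr rfl fun i _ => by rw [Pi.add_apply, Pi.add_apply]; ring
        rw [h3, h1, h2, add_zero]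
      smul_mem' := fun c a ha j => by
        have h1 := ha j
        have h3 : ∑ i, e i * cs (π j) (π i) * ((c • a) i - (c • a) j) =
            c * ∑ i, e i * cs (π j) (π i) * (a i - a j) := by
          rw [Finset.mul_sum]
          exact Finset.sum_congr rfl fun i _ => by
            rw [Pi.smul_apply, Pi.smul_apply, smul_eq_mul, smul_eq_mul]; ring
        rw [h3, h1, mul_zero] }
  have h1 : (KerV π e).ncard = Nat.card V := (Nat.card_coe_set_eq _).symm
  have h2 : Nat.card V = 3 ^ Module.finrank (ZMod 3) V := by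
    rw [Module.natCard_eq_pow_finrank (K := ZMod 3), Nat.card_zmod]
  have h3 : Module.finrank (ZMod 3) V ≠ 0 := by
    intro h0
    rw [h0, pow_zero] at h2
    have h4 : (fun _ => 1 : J → ZMod 3) ∈ V := fun j => by simp
    have h5 : Subsingleton V := (Nat.card_eq_one_iff_unique.1 h2).1
    have h6 : (⟨fun _ => 1, h4⟩ : V) = 0 := Subsingleton.elim _ _
    have h7 := congrFun (congrArg Subtype.val h6) (Classical.arbitrary J)
    exact one_ne_zero h7
  obtain ⟨r, hr⟩ := Nat.exists_eq_succ_of_ne_zero h3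
  exact ⟨r, by rw [h1, h2, hr]⟩

/-- **The Selmer group and the rank, for `D = ∏ π ^ e`.** -/
theorem main_pi {K : Type} [Field K] [NumberField K] {J : Type} [Fintype J] [Nonempty J]
    {π : J → Ei} {e : J → ZMod 3} (P : Parts) (hD : Dt π e)
    (h9 : ¬ (9 : ℤ) ∣ nr (pD π e) - 1) (j : Ei ≃+* 𝓞 K) :
    (SelK (j (pD π e) : K)).ncard = (KerV π e).ncard ∧
    ∀ r : ℕ, (KerV π e).ncard ≤ 3 ^ (r + 1) →
      Module.finrank ℤ (ED (j (pD π e) : K)).toAffine.Point ≤ 2 * r := by
  have hne : pD π e ≠ 0 := Pool.Agent.Y153.CTRAM.ne_zero_of hD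
  obtain ⟨e', i₀, hi, u, a, Ψ, g, hdata⟩ := P.trf K j _ hne
  have hT := hdata.1
  have h1 : (SelH hi a).ncard = (KerV π e).ncard := Pool.Agent.XL6.sel_card hD h9 hT
  refine ⟨(Pool.Agent.XL6.selK_card hne hdata).trans h1, fun r hr => ?_⟩
  have hpos : (KerV π e).ncard ≠ 0 := by
    have h0 : (0 : J → ZMod 3) ∈ KerV π e := fun j => by simp
    exact Set.ncard_ne_zero_of_mem h0 (Set.toFinite _)
  have hfin : (SelH hi a).Finite := Set.finite_of_ncard_ne_zero (by rw [h1]; exact hpos)
  exact (Pool.Agent.XL6.rk_le hne hdata).trans (Pool.Agent.XL6.rank_le (a_mul hne hT)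
    (a_cont hne hT) (a_ne hD hT) hfin (by rw [h1]; exact hr))

/-- the number of the solutions of the weighted system of `χ` -/
noncomputable def nLE {n : ℕ} (e : Fin n → ZMod 3) (χ : Fin n → Fin n → ZMod 3) : ℕ :=
  Nat.card {v : Fin n → ZMod 3 // ∀ j, ∑ i, e i * χ j i * (v i - v j) = 0}

variable {K : Type} [Field K] [NumberField K] (j : Ei ≃+* 𝓞 K)

/-- the kernels (compare `Pool.Agent.R419.KF.ker_iff`) -/
lemma ker_ncard (hj : ∀ z : Ei, Algebra.norm ℤ (j z) = nr z)
    {ω D : 𝓞 K} {n : ℕ} {π : Fin n → 𝓞 K} {e : Fin n → ZMod 3} {χ : Fin n → Fin n → ZMod 3}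
    (hω : ω ^ 2 + ω + 1 = 0) (h : Pool.Agent.R419.KF.IsFactE ω D n π e χ) :
    (KerV (fun i => j.symm (π i)) e).ncard = nLE e χ := by
  obtain ⟨h1, h2, h3⟩ := h
  obtain ⟨ε, hε, hcs⟩ : ∃ ε : ZMod 3, ε ≠ 0 ∧ ∀ i k, i ≠ k →
      cs (j.symm (π k)) (j.symm (π i)) = ε * χ k i := by
    have hnn : ∀ k, nn (j.symm (π k)) = ((Algebra.norm ℤ (π k)).natAbs - 1) / 3 := by
      intro k
      unfold nn
      rw [← hj, RingEquiv.apply_symm_apply]
    have hww : (Pool.Agent.Y692.QS.w : Ei) ^ 2 + Pool.Agent.Y692.QS.w + 1 = 0 := by decide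
    have hfac : (ω - j Pool.Agent.Y692.QS.w) * (ω - j (Pool.Agent.Y692.QS.w ^ 2)) = 0 := by
      have e1 : (Pool.Agent.Y692.QS.w : Ei) ^ 2 = -Pool.Agent.Y692.QS.w - 1 := by
        linear_combination hww
      rw [e1, map_sub, map_neg, map_one]
      have e2 : (j Pool.Agent.Y692.QS.w) ^ 2 + j Pool.Agent.Y692.QS.w + 1 = 0 := by
        rw [← map_pow, ← map_one j, ← map_add, ← map_add, hww, map_zero]
      linear_combination hω - e2
    rcases mul_eq_zero.1 hfac with h4 | h4
    · refine ⟨1, one_ne_zero, fun i k hik => ?_⟩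
      rw [one_mul]
      have hpq := Pool.Agent.Y696.CTK.pq_symm j (h1 k).1 (h1 k).2.1
      apply Pool.Agent.Y715.T.RecG.cs_of hpq.prime hpq.norm
      have h5 := map_dvd j.symm (h3 i k hik).2
      rw [sub_eq_zero.1 h4, map_sub, map_pow, map_pow, RingEquiv.symm_apply_apply, ← hnn k] at h5
      exact h5
    · refine ⟨-1, by decide, fun i k hik => ?_⟩
      rw [neg_one_mul]
      have hpq := Pool.Agent.Y696.CTK.pq_symm j (h1 k).1 (h1 k).2.1
      apply Pool.Agent.Y715.T.RecG.cs_of hpq.prime hpq.norm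
      have h5 := map_dvd j.symm (h3 i k hik).2
      rw [sub_eq_zero.1 h4, map_sub, map_pow, map_pow, RingEquiv.symm_apply_apply, ← hnn k,
        Pool.Agent.Y696.CTK.w_two] at h5
      exact h5
  have key : ∀ (v : Fin n → ZMod 3) (k : Fin n),
      ∑ i, e i * cs (j.symm (π k)) (j.symm (π i)) * (v i - v k) =
        ε * ∑ i, e i * χ k i * (v i - v k) := by
    intro v k
    rw [Finset.mul_sum]
    refine Finset.sum_congr rfl fun i _ => ?_
    by_cases hik : i = k
    · rw [hik, sub_self, mul_zero, mul_zero, mul_zero]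
    · rw [hcs i k hik]
      ring
  rw [← Nat.card_coe_set_eq]
  unfold nLE
  refine Nat.card_congr (Equiv.subtypeEquivRight fun v => ?_)
  show (∀ k, ∑ i, e i * cs (j.symm (π k)) (j.symm (π i)) * (v i - v k) = 0) ↔ _
  simp only [key, mul_eq_zero, hε, false_or]

end Pool.Agent.R419.KL
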