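import Pool.Agent.R419.KL.Cor

/-!
# Project KL: the ranks
-/

set_option autoImplicit false
set_option linter.unusedVariables false

open scoped Classical

namespace Pool.Agent.R419.KL

open NumberField Filter TensorProduct
open Pool.Agent.TH841.SH.D (Pt)
open Pool.Agent.Y696.CTK (ED Tri)
open Pool.Agent.R419.KF (ClsKC)

/-- the rank of a group with an endomorphism `w`, `w² + w + 1 = 0`, is even -/
theorem even_rank {M : Type} [AddCommGroup M] (w : M →+ M) (h : ∀ x, w (w x) + w x + x = 0) :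
    Even (Module.finrank ℤ M) := by
  have e1 : Module.finrank ℚ (ℚ ⊗[ℤ] M) = Module.finrank ℤ M :=
    (TensorProduct.isBaseChange ℤ M ℚ).finrank_eq
  rw [← e1]
  obtain ⟨J, hJ⟩ : ∃ J : M →ₗ[ℤ] M, ∀ x, J x = 2 • w x + x :=
    ⟨(2 • w + AddMonoidHom.id M).toIntLinearMap, fun x => rfl⟩
  have hJJ : J ∘ₗ J = (-3 : ℤ) • LinearMap.id := by
    ext x
    rw [LinearMap.comp_apply, hJ, hJ, map_add, map_nsmul, LinearMap.smul_apply, LinearMap.id_apply]
    have h1 := h x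
    have h2 : w (w x) = -(w x) - x := by
      rw [← sub_eq_zero, ← h1]
      abel
    rw [h2]
    module
  have hB : (J.baseChange ℚ) ∘ₗ (J.baseChange ℚ) = (-3 : ℚ) • LinearMap.id := by
    rw [← LinearMap.baseChange_comp, hJJ, LinearMap.baseChange_smul, LinearMap.baseChange_id]
    ext x
    simp [← Int.cast_smul_eq_zsmul ℚ]
  have hdet := congrArg LinearMap.det hB
  rw [LinearMap.det_comp, LinearMap.det_smul, LinearMap.det_id, mul_one] at hdet
  by_contra hodd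
  rw [Nat.not_even_iff_odd] at hodd
  have h3 : (-3 : ℚ) ^ Module.finrank ℚ (ℚ ⊗[ℤ] M) < 0 := Odd.pow_neg hodd (by norm_num)
  have h4 := mul_self_nonneg (LinearMap.det (J.baseChange ℚ))
  linarith

theorem even_pt {K : Type} [Field K] [CharZero K] {D z : K} (hD : D ≠ 0)
    (hz : z ^ 2 + z + 1 = 0) : Even (Module.finrank ℤ (ED D).toAffine.Point) := by
  have h := even_rank (Pool.Agent.Y703.XL.Inf.rh (D := D) (L := K) hz) fun x => by
    rw [← Pool.Agent.Y703.XL.Inf.nrm hD hz x]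
    abel
  exact h


open Pool.Agent.Y703.XL (cr)
open Pool.Agent.XL6 (SelK)

/-! ### the numbers -/

theorem cr_succ (r : ℕ) : cr (r + 1) = cr r / ((3 : ℝ) ^ (r + 1) - 1) := by
  unfold Pool.Agent.Y703.XL.cr
  rw [Finset.prod_range_succ, div_div]

theorem cr_half (r : ℕ) : cr (r + 1) ≤ cr r * (1 / 2) := by
  have h0 := prob_facts.1 r
  rw [cr_succ, div_eq_mul_inv, one_div]
  have h1 : (3 : ℝ) ^ 1 ≤ 3 ^ (r + 1) := pow_le_pow_right₀ (by norm_num) (by omega)
  have h2 : ((3 : ℝ) ^ (r + 1) - 1)⁻¹ ≤ 2⁻¹ := inv_anti₀ (by norm_num) (by linarith)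
  exact mul_le_mul_of_nonneg_left h2 h0.le

theorem cr_geo (r i : ℕ) : cr (i + r) ≤ cr r * (1 / 2) ^ i := by
  induction i with
  | zero => rw [zero_add, pow_zero, mul_one]
  | succ i ih =>
    have e : i + 1 + r = (i + r) + 1 := by ring
    rw [e, pow_succ, ← mul_assoc]
    exact (cr_half _).trans (mul_le_mul_of_nonneg_right ih (by norm_num))

theorem tail_le (r : ℕ) : 1 - ∑ i ∈ Finset.range r, cr i ≤ 2 * cr r := by
  have hs := prob_facts.2.2.2
  have h1 := hs.summable.sum_add_tsum_nat_add r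
  rw [hs.tsum_eq] at h1
  have h2 : ∑' i, cr (i + r) ≤ ∑' i : ℕ, cr r * (1 / 2) ^ i := by
    refine Summable.tsum_le_tsum (cr_geo r) ((summable_nat_add_iff r).2 hs.summable) ?_
    exact (summable_geometric_of_lt_one (by norm_num) (by norm_num)).mul_left _
  rw [tsum_mul_left, tsum_geometric_of_lt_one (by norm_num) (by norm_num)] at h2
  norm_num at h2
  linarith

/-- the limit of the averages of the truncated dimensions -/
theorem gsum (B : ℕ) : ∑ j ∈ Finset.range B, (1 - ∑ i ∈ Finset.range (j + 1), cr i) < 0.409 := by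
  obtain ⟨g, hg⟩ : ∃ g : ℕ → ℝ, ∀ j, g j = 1 - ∑ i ∈ Finset.range (j + 1), cr i := ⟨_, fun j => rfl⟩
  simp only [← hg]
  have hg0 : ∀ j, 0 ≤ g j := by
    intro j
    rw [hg]
    have := sum_le_hasSum (Finset.range (j + 1)) (fun i _ => (prob_facts.1 i).le) prob_facts.2.2.2
    linarith
  have h1 : ∑ j ∈ Finset.range B, g j ≤ ∑ j ∈ Finset.range (B + 1 + 1), g j :=
    Finset.sum_le_sum_of_subset_of_nonneg (Finset.range_mono (by omega)) fun _ _ _ => hg0 _
  refine lt_of_le_of_lt h1 ?_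
  rw [Finset.sum_range_succ', Finset.sum_range_succ']
  have h2 : ∀ k, g (k + 1 + 1) ≤ 2 * cr 3 * (1 / 2) ^ k := by
    intro k
    rw [hg]
    have e : k + 1 + 1 + 1 = k + 3 := rfl
    rw [e]
    refine (tail_le (k + 3)).trans ?_
    have h3 := cr_geo 3 k
    linarith
  have h3 : ∑ k ∈ Finset.range B, g (k + 1 + 1) ≤ 4 * cr 3 := by
    refine (Finset.sum_le_sum fun k _ => h2 k).trans ?_
    rw [← Finset.mul_sum]
    have h4 : ∑ k ∈ Finset.range B, (1 / 2 : ℝ) ^ k ≤ 2 := by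
      have := Summable.sum_le_tsum (Finset.range B) (fun i _ => by positivity)
        (summable_geometric_of_lt_one (r := (1 / 2 : ℝ)) (by norm_num) (by norm_num))
      rw [tsum_geometric_of_lt_one (by norm_num) (by norm_num)] at this
      norm_num at this ⊢
      linarith
    have h5 := (prob_facts.1 3).le
    nlinarith
  have h4 := cr_succ 0
  have h5 := cr_succ 1
  have h6 := cr_succ 2
  norm_num at h4 h5 h6
  have h7 : g (0 + 1) = 1 - (cr 0 + cr 1) := by
    rw [hg, Finset.sum_range_succ, Finset.sum_range_succ, Finset.range_zero, Finset.sum_empty,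
      zero_add]
  have h8 : g 0 = 1 - cr 0 := by
    rw [hg, Finset.sum_range_succ, Finset.range_zero, Finset.sum_empty, zero_add]
  have h9 := prob_facts.2.1
  have h10 := prob_facts.2.2.1
  rw [h7, h8]
  rw [h4] at h5 ⊢
  rw [h5] at h6
  rw [h6] at h3
  linarith

/-! ### the averages -/

/-- **the average of the truncated ranks** -/
theorem trunc (K : Type) [Field K] [NumberField K] [IsCyclotomicExtension {3} ℚ K] (B : ℕ) :
    ∀ᶠ X : ℕ in atTop, ∑ᶠ D ∈ {D : 𝓞 K | Algebra.norm ℤ D ≤ X ∧ ClsKC D},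
      ((min (Module.finrank ℤ (ED (D : K)).toAffine.Point) B : ℕ) : ℝ) ≤
      0.818 * ({D : 𝓞 K | Algebra.norm ℤ D ≤ X ∧ ClsKC D}.ncard : ℝ) := by
  have hT : Tendsto (fun X : ℕ => ∑ j ∈ Finset.range B,
      (1 - prp (fun D : 𝓞 K => (SelK (D : K)).ncard ≤ 3 ^ (j + 1)) X)) atTop
      (nhds (∑ j ∈ Finset.range B, (1 - ∑ i ∈ Finset.range (j + 1), cr i))) :=
    tendsto_finsetSum _ fun j _ => (cumT K (j + 1)).const_sub 1
  filter_upwards [hT.eventually (gt_mem_nhds (gsum B)), ev_pos K] with X hX hpos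
  change ∑ᶠ D ∈ {D : 𝓞 K | Algebra.norm ℤ D ≤ X ∧ ClsKC D},
      ((min (Module.finrank ℤ (ED (D : K)).toAffine.Point) B : ℕ) : ℝ) ≤
      0.818 * ({D : 𝓞 K | Algebra.norm ℤ D ≤ X ∧ ClsKC D}.ncard : ℝ)
  have hfin : {D : 𝓞 K | Algebra.norm ℤ D ≤ X ∧ ClsKC D}.Finite :=
    (fin_K K X).subset fun D hD => hD.1
  obtain ⟨F, hF⟩ : ∃ F : Finset (𝓞 K), (F : Set (𝓞 K)) =
      {D : 𝓞 K | Algebra.norm ℤ D ≤ X ∧ ClsKC D} := ⟨hfin.toFinset, hfin.coe_toFinset⟩
  have hFm : ∀ D, D ∈ F ↔ Algebra.norm ℤ D ≤ X ∧ ClsKC D := by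
    intro D
    rw [← Finset.mem_coe, hF]
    rfl
  rw [← hF, finsum_mem_coe_finset, Set.ncard_coe_finset]
  have hN : ((F.card : ℕ) : ℝ) = ({D : 𝓞 K | Algebra.norm ℤ D ≤ X ∧ ClsKC D}.ncard : ℝ) := by
    rw [← hF, Set.ncard_coe_finset]
  have h1 : ∀ D ∈ F, ((min (Module.finrank ℤ (ED (D : K)).toAffine.Point) B : ℕ) : ℝ) ≤
      ∑ j ∈ Finset.range B, 2 * (if (SelK (D : K)).ncard ≤ 3 ^ (j + 1) then 0 else 1 : ℝ) := by
    intro D hD
    obtain ⟨⟨r, hr, hrk⟩, -⟩ := oneK ((hFm D).1 hD).2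
    have h2 : ∀ j, (if (SelK (D : K)).ncard ≤ 3 ^ (j + 1) then 0 else 1 : ℝ) =
        if j < r then 1 else 0 := by
      intro j
      have h0 : (SelK (D : K)).ncard ≤ 3 ^ (j + 1) ↔ ¬ j < r := by
        rw [hr, Nat.pow_le_pow_iff_right (by norm_num)]
        omega
      by_cases h : j < r
      · rw [if_pos h, if_neg fun h5 => h0.1 h5 h]
      · rw [if_neg h, if_pos (h0.2 h)]
    simp only [h2]
    rw [← Finset.mul_sum, Finset.sum_boole]
    have h3 : ((Finset.range B).filter fun j => j < r).card = min B r := by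
      have e : (Finset.range B).filter (fun j => j < r) = Finset.range (min B r) := by
        ext j
        rw [Finset.mem_filter, Finset.mem_range, Finset.mem_range, lt_min_iff]
      rw [e, Finset.card_range]
    rw [h3]
    have h4 : min (Module.finrank ℤ (ED (D : K)).toAffine.Point) B ≤ 2 * min B r := by omega
    exact_mod_cast h4
  have h2 : ∀ j, prp (fun D : 𝓞 K => (SelK (D : K)).ncard ≤ 3 ^ (j + 1)) X * (F.card : ℝ) =
      ((F.filter fun D : 𝓞 K => (SelK (D : K)).ncard ≤ 3 ^ (j + 1)).card : ℝ) := by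
    intro j
    unfold prp
    rw [hN, div_mul_cancel₀ _ hpos.ne']
    rw [← Set.ncard_coe_finset]
    congr 2
    ext D
    rw [Finset.mem_coe, Finset.mem_filter, hFm]
    exact ⟨fun h => ⟨⟨h.1, h.2.1⟩, h.2.2⟩, fun h => ⟨h.1.1, h.1.2, h.2⟩⟩
  have h3 : ∀ j, ∑ D ∈ F, (if (SelK (D : K)).ncard ≤ 3 ^ (j + 1) then 0 else 1 : ℝ) =
      (1 - prp (fun D : 𝓞 K => (SelK (D : K)).ncard ≤ 3 ^ (j + 1)) X) * (F.card : ℝ) := by
    intro j
    rw [sub_mul, one_mul, h2]
    have h4 : ∀ D ∈ F, (if (SelK (D : K)).ncard ≤ 3 ^ (j + 1) then 0 else 1 : ℝ) =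
        1 - if (SelK (D : K)).ncard ≤ 3 ^ (j + 1) then 1 else 0 := by
      intro D _
      split_ifs
      · norm_num
      · norm_num
    rw [Finset.sum_congr rfl h4, Finset.sum_sub_distrib, Finset.sum_const, nsmul_eq_mul, mul_one,
      Finset.sum_boole]
  have hFp : (0 : ℝ) < (F.card : ℝ) := by rw [hN]; exact hpos
  calc ∑ D ∈ F, ((min (Module.finrank ℤ (ED (D : K)).toAffine.Point) B : ℕ) : ℝ)
      ≤ ∑ D ∈ F, ∑ j ∈ Finset.range B,
        2 * (if (SelK (D : K)).ncard ≤ 3 ^ (j + 1) then 0 else 1 : ℝ) := Finset.sum_le_sum h1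
    _ = ∑ j ∈ Finset.range B, 2 *
        ((1 - prp (fun D : 𝓞 K => (SelK (D : K)).ncard ≤ 3 ^ (j + 1)) X) * (F.card : ℝ)) := by
        rw [Finset.sum_comm]
        refine Finset.sum_congr rfl fun j _ => ?_
        rw [← Finset.mul_sum, h3]
    _ = 2 * (∑ j ∈ Finset.range B,
        (1 - prp (fun D : 𝓞 K => (SelK (D : K)).ncard ≤ 3 ^ (j + 1)) X)) * (F.card : ℝ) := by
        rw [← Finset.mul_sum, ← Finset.sum_mul, mul_assoc]
    _ ≤ 0.818 * (F.card : ℝ) := by
        have : 2 * (∑ j ∈ Finset.range B,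
          (1 - prp (fun D : 𝓞 K => (SelK (D : K)).ncard ≤ 3 ^ (j + 1)) X)) ≤ 0.818 := by
            linarith
        exact mul_le_mul_of_nonneg_right this hFp.le

/-- **The ranks.** -/
theorem finalRank (K : Type) [Field K] [NumberField K] [IsCyclotomicExtension {3} ℚ K] (ω : K)
    (hω : ω ^ 2 + ω + 1 = 0) :
    (∀ D : 𝓞 K, ClsKC D → Even (Module.finrank ℤ (ED (D : K)).toAffine.Point)) ∧
    (∀ (r : ℕ) (ε : ℝ), 0 < ε → ∀ᶠ X : ℕ in atTop, ∑ i ∈ Finset.range (r + 1), cr i - ε ≤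
        prp (fun D : 𝓞 K => Module.finrank ℤ (ED (D : K)).toAffine.Point ≤ 2 * r) X) ∧
    (∀ᶠ X : ℕ in atTop, 0.9585 ≤
        prp (fun D : 𝓞 K => Module.finrank ℤ (ED (D : K)).toAffine.Point ≤ 2) X) := by
  have h1 : ∀ (r : ℕ) (ε : ℝ), 0 < ε → ∀ᶠ X : ℕ in atTop, ∑ i ∈ Finset.range (r + 1), cr i - ε ≤
      prp (fun D : 𝓞 K => Module.finrank ℤ (ED (D : K)).toAffine.Point ≤ 2 * r) X := by
    intro r ε hε
    refine small_of K _ (r + 1) (fun D hD h => ?_) ε hε
    obtain ⟨⟨s, hs, hrk⟩, -⟩ := oneK hD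
    rw [hs, Nat.pow_le_pow_iff_right (by norm_num)] at h
    show Module.finrank ℤ (ED (D : K)).toAffine.Point ≤ 2 * r
    omega
  refine ⟨fun D hD => even_pt (ne_zero hD) hω, h1, ?_⟩
  have h2 := cr_succ 0
  norm_num at h2
  have h3 := prob_facts.2.1
  refine (h1 1 (∑ i ∈ Finset.range (1 + 1), cr i - 0.9585) ?_).mono fun X hX => ?_
  · rw [Finset.sum_range_succ, Finset.sum_range_succ, Finset.range_zero, Finset.sum_empty,
      zero_add, h2]
    linarith
  · rw [mul_one] at hX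
    linarith

end Pool.Agent.R419.KL

namespace Pool.Agent.R419.KL

open NumberField Filter
open Pool.Agent.Y703.XL (cr)
open Pool.Agent.Y696.CTK (ED Tri)
open Pool.Agent.R419.KF (ClsKC)

/-- a third root of unity -/
theorem ex_root (K : Type) [Field K] [NumberField K] [IsCyclotomicExtension {3} ℚ K] :
    ∃ ω : K, ω ^ 2 + ω + 1 = 0 := by
  obtain ⟨⟨j, hj⟩, -⟩ := Pool.Agent.Y455.CTK.jex K
  have hww : (Pool.Agent.Y692.QS.w : Pool.Agent.Y692.QS.Ei) ^ 2 + Pool.Agent.Y692.QS.w + 1 = 0 := by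
    decide
  refine ⟨((j Pool.Agent.Y692.QS.w : 𝓞 K) : K), ?_⟩
  have h2 := congrArg (fun z => ((j z : 𝓞 K) : K)) hww
  simp only [map_add, map_pow, map_one, map_zero] at h2
  exact h2

/-- the numbers for the ranks -/
theorem ranks_num (K : Type) [Field K] [NumberField K] [IsCyclotomicExtension {3} ℚ K] :
    ∀ᶠ X : ℕ in atTop,
      0.639 ≤ prp (fun D : 𝓞 K => Module.finrank ℤ (ED (D : K)).toAffine.Point = 0) X ∧
      0.9585 ≤ prp (fun D : 𝓞 K => Module.finrank ℤ (ED (D : K)).toAffine.Point = 0 ∨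
        Module.finrank ℤ (ED (D : K)).toAffine.Point = 2) X ∧
      0.998 ≤ prp (fun D : 𝓞 K => Module.finrank ℤ (ED (D : K)).toAffine.Point ≤ 4) X := by
  obtain ⟨ω, hω⟩ := ex_root K
  obtain ⟨h1, h2, -⟩ := finalRank K ω hω
  have c1 := cr_succ 0
  have c2 := cr_succ 1
  norm_num at c1 c2
  have h3 := prob_facts.2.1
  have s1 : ∑ i ∈ Finset.range (0 + 1), cr i = cr 0 := by
    rw [Finset.sum_range_succ, Finset.range_zero, Finset.sum_empty, zero_add]
  have s2 : ∑ i ∈ Finset.range (1 + 1), cr i = cr 0 + cr 1 := by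
    rw [Finset.sum_range_succ, s1]
  have s3 : ∑ i ∈ Finset.range (2 + 1), cr i = cr 0 + cr 1 + cr 2 := by
    rw [Finset.sum_range_succ, s2]
  have k1 := h2 0 (cr 0 - 0.639) (by linarith)
  have k2 := h2 1 (cr 0 + cr 1 - 0.9585) (by linarith)
  have k3 := h2 2 (cr 0 + cr 1 + cr 2 - 0.998) (by linarith)
  filter_upwards [k1, k2, k3] with X hX1 hX2 hX3
  rw [s1] at hX1
  rw [s2] at hX2
  rw [s3] at hX3
  have m1 := prp_mono (K := K)
    (P := fun D : 𝓞 K => Module.finrank ℤ (ED (D : K)).toAffine.Point ≤ 2 * 0)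
    (Q := fun D : 𝓞 K => Module.finrank ℤ (ED (D : K)).toAffine.Point = 0)
    (fun D hD h => by omega) X
  have m2 := prp_mono (K := K)
    (P := fun D : 𝓞 K => Module.finrank ℤ (ED (D : K)).toAffine.Point ≤ 2 * 1)
    (Q := fun D : 𝓞 K => Module.finrank ℤ (ED (D : K)).toAffine.Point = 0 ∨
        Module.finrank ℤ (ED (D : K)).toAffine.Point = 2)
    (fun D hD h => by
      obtain ⟨m, hm⟩ := h1 D hD
      omega) X
  have m3 := prp_mono (K := K)
    (P := fun D : 𝓞 K => Module.finrank ℤ (ED (D : K)).toAffine.Point ≤ 2 * 2)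
    (Q := fun D : 𝓞 K => Module.finrank ℤ (ED (D : K)).toAffine.Point ≤ 4)
    (fun D hD h => by omega) X
  exact ⟨by linarith, by linarith, by linarith⟩

end Pool.Agent.R419.KL
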