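import Pool.Agent.R419.KF.NS
import Pool.Agent.R419.KL.Asy

/-!
# Project KL: the sum over the sets `M` of the primes with exponent `2`
-/

set_option autoImplicit false

open scoped Classical
open Finset Filter

namespace Pool.Agent.R419.KL

open Pool.Agent.Y692.QS (Ei w nr toC)
open Pool.Agent.Y715.T.RecG (Pq)
open Pool.Agent.Y699.E (nrm QB mem_QB pq_nrm_two)
open Pool.Agent.Y703.XK (S_BIL S_LOW)
open Pool.Agent.Y433.XK (pN pN_pos)
open Pool.Agent.R419.KF (SG SW mem_SG ff ff_summable sw_le low_Nt Nt)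

/-- the number of the good pairs -/
noncomputable def GP (P : Finset Ei → Finset Ei → Prop) (X : ℕ) : ℕ :=
  ∑ M ∈ SG X, ((SW M (X / pN M)).filter (P M)).card

theorem abs_le_card {P : Finset Ei → Finset Ei → Prop} {c : ℝ} (hc0 : 0 ≤ c) (hc1 : c ≤ 1)
    (M : Finset Ei) (Y : ℕ) :
    |(((SW M Y).filter (P M)).card : ℝ) - c * ((SW M Y).card : ℝ)| ≤ ((SW M Y).card : ℝ) := by
  have h2 : (((SW M Y).filter (P M)).card : ℝ) ≤ ((SW M Y).card : ℝ) := by
    exact_mod_cast card_filter_le _ _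
  have h3 : (0 : ℝ) ≤ ((SW M Y).card : ℝ) := Nat.cast_nonneg _
  exact Pool.Agent.Y703.CX.abs_sub_le_of (Nat.cast_nonneg _) h2 (mul_nonneg hc0 h3)
    (mul_le_of_le_one_left h3 hc1)

/-- the error -/
theorem tot (h1 : S_BIL) {P : Finset Ei → Finset Ei → Prop} {c K : ℝ} (hK : 0 ≤ K)
    (hB : BoxW P c K) (hc0 : 0 ≤ c) (hc1 : c ≤ 1) (δ : ℝ) (hδ : 0 < δ) :
    ∀ᶠ X : ℕ in atTop, |(GP P X : ℝ) - c * (Nt X : ℝ)| ≤ δ * X := by
  obtain ⟨T₀, hT₀⟩ := (summable_iff_vanishing_norm.1 ff_summable) (δ / 32) (by positivity)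
  set ε' : ℝ := δ / (2 * ((T₀.card : ℝ) + 1)) with hε'
  have hε'0 : 0 < ε' := by positivity
  have hev : ∀ᶠ X : ℕ in atTop, ∀ M ∈ T₀.filter (fun M => ∀ q ∈ M, Pq q),
      |(((SW M (X / pN M)).filter (P M)).card : ℝ) - c * ((SW M (X / pN M)).card : ℝ)| ≤
        ε' * X := by
    rw [eventually_all_finset]
    intro M hM
    have hp := pN_pos (mem_filter.1 hM).2
    obtain ⟨X₀, hX₀⟩ := asyM h1 hK hB hc0 hc1 M ε' hε'0
    filter_upwards [eventually_ge_atTop (X₀ * pN M)] with X hX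
    have h5 : X₀ ≤ X / pN M := (Nat.le_div_iff_mul_le hp).2 hX
    refine (hX₀ _ h5).trans ?_
    have h6 : ((X / pN M : ℕ) : ℝ) ≤ X := by exact_mod_cast Nat.div_le_self _ _
    gcongr
  filter_upwards [hev] with X hX
  have k1 : (GP P X : ℝ) - c * (Nt X : ℝ) = ∑ M ∈ SG X,
      ((((SW M (X / pN M)).filter (P M)).card : ℝ) - c * ((SW M (X / pN M)).card : ℝ)) := by
    rw [sum_sub_distrib, ← mul_sum]
    unfold GP Nt
    push_cast
    rfl
  have hX0 : (0 : ℝ) ≤ X := Nat.cast_nonneg _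
  rw [k1]
  refine (abs_sum_le_sum_abs _ _).trans ?_
  rw [← sum_filter_add_sum_filter_not (SG X) (fun M => M ∈ T₀)]
  have k2 : ∑ M ∈ (SG X).filter (fun M => M ∈ T₀), |(((SW M (X / pN M)).filter (P M)).card : ℝ) -
      c * ((SW M (X / pN M)).card : ℝ)| ≤ δ / 2 * X := by
    have k3 : ∑ M ∈ (SG X).filter (fun M => M ∈ T₀),
        |(((SW M (X / pN M)).filter (P M)).card : ℝ) - c * ((SW M (X / pN M)).card : ℝ)| ≤
        ∑ M ∈ (SG X).filter (fun M => M ∈ T₀), ε' * X := by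
      refine sum_le_sum fun M hM => hX M ?_
      rw [mem_filter] at hM ⊢
      exact ⟨hM.2, (mem_SG.1 hM.1).1⟩
    refine k3.trans ?_
    rw [sum_const, nsmul_eq_mul]
    have k4 : ((((SG X).filter fun M => M ∈ T₀).card : ℕ) : ℝ) ≤ (T₀.card : ℝ) + 1 := by
      have : ((SG X).filter fun M => M ∈ T₀).card ≤ T₀.card :=
        card_le_card fun M hM => (mem_filter.1 hM).2
      have h6 : ((((SG X).filter fun M => M ∈ T₀).card : ℕ) : ℝ) ≤ (T₀.card : ℝ) := by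
        exact_mod_cast this
      linarith
    have k5 : (0 : ℝ) < (T₀.card : ℝ) + 1 := by positivity
    calc ((((SG X).filter fun M => M ∈ T₀).card : ℕ) : ℝ) * (ε' * X) ≤
        ((T₀.card : ℝ) + 1) * (ε' * X) := by gcongr
      _ = δ / 2 * X := by
        rw [hε']
        field_simp
  have k3 : ∑ M ∈ (SG X).filter (fun M => ¬ M ∈ T₀),
      |(((SW M (X / pN M)).filter (P M)).card : ℝ) - c * ((SW M (X / pN M)).card : ℝ)| ≤
      δ / 2 * X := by
    have k4 : ∑ M ∈ (SG X).filter (fun M => ¬ M ∈ T₀),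
        |(((SW M (X / pN M)).filter (P M)).card : ℝ) - c * ((SW M (X / pN M)).card : ℝ)| ≤
        ∑ M ∈ (SG X).filter (fun M => ¬ M ∈ T₀), 16 * (X * ff M) := by
      refine sum_le_sum fun M hM => (abs_le_card hc0 hc1 M _).trans (sw_le ?_ X)
      exact (mem_SG.1 (mem_filter.1 hM).1).1
    refine k4.trans ?_
    rw [← mul_sum, ← mul_sum]
    have k5 := hT₀ ((SG X).filter fun M => ¬ M ∈ T₀) (by
      rw [disjoint_left]
      intro M hM hM'
      exact (mem_filter.1 hM).2 hM')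
    have k6 := (le_abs_self _).trans ((Real.norm_eq_abs _).symm.le.trans k5.le)
    calc 16 * ((X : ℝ) * ∑ M ∈ (SG X).filter (fun M => ¬ M ∈ T₀), ff M) ≤
        16 * ((X : ℝ) * (δ / 32)) := by gcongr
      _ = δ / 2 * X := by ring
  calc _ ≤ δ / 2 * X + δ / 2 * X := add_le_add k2 k3
    _ = δ * X := by ring

/-- **the limit** -/
theorem t_TOT (h1 : S_BIL) (hLo : S_LOW) {P : Finset Ei → Finset Ei → Prop} {p K : ℝ}
    (hK : 0 ≤ K) (hB : BoxW P p K) (hp0 : 0 ≤ p) (hp1 : p ≤ 1) :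
    Tendsto (fun X : ℕ => (GP P X : ℝ) / (Nt X : ℝ)) atTop (nhds p) := by
  obtain ⟨c, X₀, hc, hlow⟩ := low_Nt hLo
  rw [Metric.tendsto_nhds]
  intro ε hε
  filter_upwards [tot h1 hK hB hp0 hp1 (c * ε / 2) (by positivity), eventually_ge_atTop (max X₀ 1)]
    with X hX hX0
  have hlo := hlow X ((le_max_left _ _).trans hX0)
  have hX1 : (0 : ℝ) < X := by exact_mod_cast (le_max_right _ _).trans hX0
  have hN : (0 : ℝ) < Nt X := lt_of_lt_of_le (by positivity) hlo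
  rw [Real.dist_eq]
  have e3 : (GP P X : ℝ) / (Nt X : ℝ) - p = ((GP P X : ℝ) - p * (Nt X : ℝ)) / (Nt X : ℝ) := by
    field_simp
  rw [e3, abs_div, abs_of_pos hN, div_lt_iff₀ hN]
  calc |(GP P X : ℝ) - p * (Nt X : ℝ)| ≤ c * ε / 2 * X := hX
    _ = ε / 2 * (c * X) := by ring
    _ ≤ ε / 2 * (Nt X : ℝ) := by gcongr
    _ < ε * (Nt X : ℝ) := by
      apply mul_lt_mul_of_pos_right _ hN
      linarith

end Pool.Agent.R419.KL
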